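import Mathlib

/-!
CRP (black-box PTAS for the commutative rank): ranks of linear maps.
Paper proof: /team-store/crp_ptas.md
-/

set_option autoImplicit false

namespace Pool.Agent.CRP

open Module

variable {K : Type*} [Field K]
variable {U V W : Type*} [AddCommGroup U] [Module K U] [AddCommGroup V] [Module K V]
  [AddCommGroup W] [Module K W]

/-- rank of a linear map -/
noncomputable def rk (f : V →ₗ[K] W) : ℕ := finrank K (LinearMap.range f)

theorem rk_le_dom [FiniteDimensional K V] (f : V →ₗ[K] W) : rk f ≤ finrank K V :=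
  LinearMap.finrank_range_le f

theorem rk_zero : rk (0 : V →ₗ[K] W) = 0 := by
  rw [rk, LinearMap.range_zero, finrank_bot]

theorem rk_add [FiniteDimensional K V] (f g : V →ₗ[K] W) : rk (f + g) ≤ rk f + rk g := by
  have h1 : LinearMap.range (f + g) ≤ LinearMap.range f ⊔ LinearMap.range g := by
    rintro _ ⟨v, rfl⟩
    exact Submodule.add_mem_sup ⟨v, rfl⟩ ⟨v, rfl⟩
  exact (Submodule.finrank_mono h1).trans (Submodule.finrank_add_le_finrank_add_finrank _ _)

theorem rk_comp_le_left [FiniteDimensional K U] (f : U →ₗ[K] V) (g : V →ₗ[K] W) :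
    rk (g ∘ₗ f) ≤ rk f := by
  rw [rk, rk, LinearMap.range_comp]
  exact Submodule.finrank_map_le g _

theorem rk_comp_le_right [FiniteDimensional K V] (f : U →ₗ[K] V) (g : V →ₗ[K] W) :
    rk (g ∘ₗ f) ≤ rk g := by
  rw [rk, rk, LinearMap.range_comp]
  exact Submodule.finrank_mono (LinearMap.map_le_range)

/-- generalised inverse -/
theorem exists_ginv (f : V →ₗ[K] W) : ∃ g : W →ₗ[K] V, ∀ v, f (g (f v)) = f v := by
  obtain ⟨h, hh⟩ := f.rangeRestrict.exists_rightInverse_of_surjective f.range_rangeRestrict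
  obtain ⟨g, hg⟩ := LinearMap.exists_extend h
  refine ⟨g, fun v => ?_⟩
  have h1 : g (f v) = h (f.rangeRestrict v) := by
    rw [← hg]
    rfl
  have h2 : f.rangeRestrict (h (f.rangeRestrict v)) = f.rangeRestrict v := by
    rw [← LinearMap.comp_apply, hh, LinearMap.id_apply]
  rw [h1]
  exact congrArg Subtype.val h2

/-- if the rank drops at `s` then `-s⁻¹` is an eigenvalue of an endomorphism of the range -/
private theorem sc_aux [FiniteDimensional K V] (A C : V →ₗ[K] W) :
    ∃ N : End K (LinearMap.range A), ∀ s : K, rk (A + s • C) < rk A →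
      N.HasEigenvalue (-s⁻¹) ∧ s ≠ 0 := by
  obtain ⟨G, hG⟩ := exists_ginv A
  refine ⟨(A.rangeRestrict ∘ₗ G ∘ₗ C ∘ₗ G) ∘ₗ (LinearMap.range A).subtype, fun s hs => ?_⟩
  have hs0 : s ≠ 0 := by
    rintro rfl
    rw [zero_smul, add_zero] at hs
    exact lt_irrefl _ hs
  refine ⟨?_, hs0⟩
  -- the map `w ↦ A G (A + s C) G w` on the range
  let φ : LinearMap.range A →ₗ[K] LinearMap.range A :=
    A.rangeRestrict ∘ₗ (G ∘ₗ (A + s • C)) ∘ₗ (G ∘ₗ (LinearMap.range A).subtype)
  have hφ : ¬ Function.Injective φ := by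
    intro hi
    have h1 : rk φ = finrank K (LinearMap.range A) := LinearMap.finrank_range_of_inj hi
    have h2 : rk φ ≤ rk (A + s • C) := by
      have e1 : rk φ ≤ rk ((G ∘ₗ (A + s • C)) ∘ₗ (G ∘ₗ (LinearMap.range A).subtype)) :=
        rk_comp_le_left _ _
      have e2 : rk ((G ∘ₗ (A + s • C)) ∘ₗ (G ∘ₗ (LinearMap.range A).subtype)) ≤
          rk (G ∘ₗ (A + s • C)) := rk_comp_le_right _ _
      have e3 : rk (G ∘ₗ (A + s • C)) ≤ rk (A + s • C) := rk_comp_le_left _ _
      omega
    rw [rk] at hs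
    unfold rk at *
    omega
  rw [injective_iff_map_eq_zero] at hφ
  push Not at hφ
  obtain ⟨w, hw, hw0⟩ := hφ
  refine End.hasEigenvalue_of_hasEigenvector (x := w) ⟨End.mem_eigenspace_iff.2 ?_, hw0⟩
  obtain ⟨v, hv⟩ := w.2
  have h3 : A (G (w : W)) = w := by rw [← hv, hG]
  have h4 : A (G (A (G (w : W)) + s • C (G (w : W)))) = 0 := congrArg Subtype.val hw
  rw [h3, map_add, map_add, h3, map_smul, map_smul] at h4
  have h5 : A (G (C (G (w : W)))) = -(s⁻¹ • (w : W)) := by
    have h6 : s • A (G (C (G (w : W)))) = -(w : W) := by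
      rw [eq_neg_iff_add_eq_zero, add_comm]
      exact h4
    rw [← smul_neg, ← h6, smul_smul, inv_mul_cancel₀ hs0, one_smul]
  refine Subtype.ext ?_
  rw [neg_smul]
  exact h5

/-- semicontinuity of the rank: cofinite version -/
theorem sc_finite [FiniteDimensional K V] (A C : V →ₗ[K] W) :
    {s : K | rk (A + s • C) < rk A}.Finite := by
  obtain ⟨N, hN⟩ := sc_aux A C
  refine Set.Finite.of_finite_image (f := fun s : K => -s⁻¹)
    (N.finite_hasEigenvalue.subset ?_) ?_
  · rintro _ ⟨s, hs, rfl⟩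
    exact (hN s hs).1
  · intro a _ b _ hab
    exact inv_injective (neg_injective hab)

/-- semicontinuity of the rank: quantitative version -/
theorem sc_finset [FiniteDimensional K V] (A C : V →ₗ[K] W) (F : Finset K)
    (hF : rk A < F.card) : ∃ s ∈ F, rk A ≤ rk (A + s • C) := by
  classical
  by_contra hcon
  push Not at hcon
  obtain ⟨N, hN⟩ := sc_aux A C
  have h1 : F.image (fun s : K => -s⁻¹) ⊆ N.charpoly.roots.toFinset := by
    intro a ha
    obtain ⟨s, hs, rfl⟩ := Finset.mem_image.1 ha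
    rw [Multiset.mem_toFinset, Polynomial.mem_roots N.charpoly_monic.ne_zero]
    exact (End.hasEigenvalue_iff_isRoot_charpoly _ _).1 (hN s (hcon s hs)).1
  have h2 : (F.image (fun s : K => -s⁻¹)).card = F.card :=
    Finset.card_image_of_injective _ fun a b hab => inv_injective (neg_injective hab)
  have h3 := Finset.card_le_card h1
  have h4 : N.charpoly.roots.toFinset.card ≤ rk A :=
    ((Multiset.toFinset_card_le _).trans (Polynomial.card_roots' _)).trans
      (le_of_eq (LinearMap.charpoly_natDegree N))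
  omega

/-- the block map with diagonal blocks `X` and the block `C` off the diagonal -/
def dbl (X C : V →ₗ[K] W) : V × V →ₗ[K] W × W :=
  (X ∘ₗ LinearMap.fst K V V).prod (C ∘ₗ LinearMap.fst K V V + X ∘ₗ LinearMap.snd K V V)

/-- the part of `C` which is visible to first order: `(1 - X G) C (1 - G X)` -/
def vis (X : V →ₗ[K] W) (G : W →ₗ[K] V) (C : V →ₗ[K] W) : V →ₗ[K] W :=
  (LinearMap.id - X ∘ₗ G) ∘ₗ C ∘ₗ (LinearMap.id - G ∘ₗ X)

theorem vis_apply (X : V →ₗ[K] W) (G : W →ₗ[K] V) (C : V →ₗ[K] W) (v : V) :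
    vis X G C v = C (v - G (X v)) - X (G (C (v - G (X v)))) := rfl

theorem rk_dbl_le [FiniteDimensional K V] [FiniteDimensional K W] (X : V →ₗ[K] W) (G : W →ₗ[K] V)
    (hG : ∀ v, X (G (X v)) = X v) (C : V →ₗ[K] W) :
    rk (dbl X C) ≤ 2 * rk X + rk (vis X G C) := by
  -- `dbl X C = left * dbl X (vis) * right`
  let R : V × V →ₗ[K] V × V :=
    (LinearMap.fst K V V).prod (G ∘ₗ C ∘ₗ LinearMap.fst K V V + LinearMap.snd K V V)
  let L : W × W →ₗ[K] W × W :=
    (LinearMap.fst K W W).prod
      ((LinearMap.id - X ∘ₗ G) ∘ₗ C ∘ₗ G ∘ₗ LinearMap.fst K W W + LinearMap.snd K W W)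
  have h1 : dbl X C = L ∘ₗ dbl X (vis X G C) ∘ₗ R := by
    refine LinearMap.ext fun p => Prod.ext rfl ?_
    obtain ⟨v, w⟩ := p
    change C v + X w = (C (G (X v)) - X (G (C (G (X v))))) +
      (vis X G C v + X (G (C v) + w))
    rw [vis_apply]
    simp only [map_sub, map_add]
    abel
  have h2 : dbl X (vis X G C) =
      (LinearMap.inl K W W ∘ₗ X ∘ₗ LinearMap.fst K V V +
        LinearMap.inr K W W ∘ₗ X ∘ₗ LinearMap.snd K V V) +
        LinearMap.inr K W W ∘ₗ vis X G C ∘ₗ LinearMap.fst K V V := by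
    refine LinearMap.ext fun p => ?_
    obtain ⟨v, w⟩ := p
    refine Prod.ext ?_ ?_
    · change X v = (X v + 0) + 0
      rw [add_zero, add_zero]
    · change vis X G C v + X w = (0 + X w) + vis X G C v
      rw [zero_add, add_comm]
  have h3 : rk (dbl X C) ≤ rk (dbl X (vis X G C)) := by
    rw [h1]
    exact (rk_comp_le_left _ _).trans (rk_comp_le_right _ _)
  have e1 : rk (LinearMap.inl K W W ∘ₗ X ∘ₗ LinearMap.fst K V V) ≤ rk X :=
    (rk_comp_le_left _ _).trans (rk_comp_le_right _ _)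
  have e2 : rk (LinearMap.inr K W W ∘ₗ X ∘ₗ LinearMap.snd K V V) ≤ rk X :=
    (rk_comp_le_left _ _).trans (rk_comp_le_right _ _)
  have e3 : rk (LinearMap.inr K W W ∘ₗ vis X G C ∘ₗ LinearMap.fst K V V) ≤ rk (vis X G C) :=
    (rk_comp_le_left _ _).trans (rk_comp_le_right _ _)
  have e4 : rk (dbl X (vis X G C)) ≤ (rk (LinearMap.inl K W W ∘ₗ X ∘ₗ LinearMap.fst K V V) +
      rk (LinearMap.inr K W W ∘ₗ X ∘ₗ LinearMap.snd K V V)) +
      rk (LinearMap.inr K W W ∘ₗ vis X G C ∘ₗ LinearMap.fst K V V) := by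
    rw [h2]
    exact (rk_add _ _).trans (Nat.add_le_add_right (rk_add _ _) _)
  omega

theorem rk_vis_le [FiniteDimensional K V] [FiniteDimensional K W] (X : V →ₗ[K] W) (G : W →ₗ[K] V)
    (hG : ∀ v, X (G (X v)) = X v) (C : V →ₗ[K] W) :
    {s : K | rk (X + s • C) < rk X + rk (vis X G C)}.Finite := by
  -- `f = X + (1 - X G) C`
  set f : V →ₗ[K] W := X + (LinearMap.id - X ∘ₗ G) ∘ₗ C with hf
  have h1 : rk X + rk (vis X G C) ≤ rk f := by
    let g : LinearMap.range f →ₗ[K] W := (X ∘ₗ G) ∘ₗ (LinearMap.range f).subtype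
    have h2 := LinearMap.finrank_range_add_finrank_ker g
    have h3 : finrank K (LinearMap.range X) ≤ finrank K (LinearMap.range g) := by
      refine Submodule.finrank_mono ?_
      rintro _ ⟨v, rfl⟩
      refine ⟨⟨f v, v, rfl⟩, ?_⟩
      change X (G (X v + (C v - X (G (C v))))) = X v
      simp only [map_add, map_sub, hG, sub_self, add_zero]
    have h4 : finrank K (LinearMap.range (vis X G C)) ≤ finrank K (LinearMap.ker g) := by
      let e : LinearMap.range (vis X G C) →ₗ[K] LinearMap.ker g :=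
        { toFun := fun y => ⟨⟨y.1, by
            obtain ⟨v, hv⟩ := y.2
            refine ⟨v - G (X v), ?_⟩
            rw [← hv]
            change X (v - G (X v)) + (C (v - G (X v)) - X (G (C (v - G (X v))))) = _
            rw [vis_apply, map_sub X, hG, sub_self, zero_add]⟩, by
            obtain ⟨v, hv⟩ := y.2
            rw [LinearMap.mem_ker]
            change X (G y.1) = 0
            rw [← hv, vis_apply]
            simp only [map_sub, hG, sub_self]⟩
          map_add' := fun _ _ => rfl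
          map_smul' := fun _ _ => rfl }
      refine LinearMap.finrank_le_finrank_of_injective (f := e) fun a b hab => ?_
      have h5 := congrArg (fun z : LinearMap.ker g => ((z : LinearMap.range f) : W)) hab
      exact Subtype.ext h5
    unfold rk
    omega
  refine (Set.Finite.subset ((sc_finite f ((X ∘ₗ G) ∘ₗ C)).union (Set.finite_singleton (0 : K))) ?_)
  intro s hs
  by_cases hs0 : s = 0
  · exact Or.inr hs0
  refine Or.inl ?_
  change rk (f + s • ((X ∘ₗ G) ∘ₗ C)) < rk f
  have h6 : f + s • ((X ∘ₗ G) ∘ₗ C) =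
      (X ∘ₗ G + s⁻¹ • (LinearMap.id - X ∘ₗ G)) ∘ₗ (X + s • C) := by
    refine LinearMap.ext fun v => ?_
    change (X v + (C v - X (G (C v)))) + s • X (G (C v)) =
      X (G (X v + s • C v)) + s⁻¹ • ((X v + s • C v) - X (G (X v + s • C v)))
    simp only [map_add, map_smul, hG]
    rw [add_sub_add_left_eq_sub, ← smul_sub, smul_smul, inv_mul_cancel₀ hs0, one_smul]
    abel
  have h7 : rk (f + s • ((X ∘ₗ G) ∘ₗ C)) ≤ rk (X + s • C) := by
    rw [h6]
    exact rk_comp_le_left _ _
  have h8 : rk (X + s • C) < rk X + rk (vis X G C) := hs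
  omega

/-- two block triangular structures: sub and quotient -/
theorem rk_sub_quot {V' V'' : Type*} [AddCommGroup V'] [Module K V'] [AddCommGroup V'']
    [Module K V''] [FiniteDimensional K V] (f' : V' →ₗ[K] V') (f : V →ₗ[K] V) (f'' : V'' →ₗ[K] V'')
    (i : V' →ₗ[K] V) (p : V →ₗ[K] V'') (hi : Function.Injective i) (hp : Function.Surjective p)
    (hpi : ∀ v, p (i v) = 0) (h1 : ∀ v, f (i v) = i (f' v)) (h2 : ∀ v, p (f v) = f'' (p v)) :
    rk f' + rk f'' ≤ rk f := by
  let g : LinearMap.range f →ₗ[K] V'' := p ∘ₗ (LinearMap.range f).subtype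
  have h3 := LinearMap.finrank_range_add_finrank_ker g
  have h4 : LinearMap.range g = LinearMap.range f'' := by
    refine le_antisymm ?_ ?_
    · rintro _ ⟨⟨_, v, rfl⟩, rfl⟩
      exact ⟨p v, (h2 v).symm⟩
    · rintro _ ⟨u, rfl⟩
      obtain ⟨v, rfl⟩ := hp u
      exact ⟨⟨f v, v, rfl⟩, h2 v⟩
  have h5 : finrank K (LinearMap.range f') ≤ finrank K (LinearMap.ker g) := by
    let e : LinearMap.range f' →ₗ[K] LinearMap.ker g :=
      { toFun := fun y => ⟨⟨i y.1, by
          obtain ⟨v, hv⟩ := y.2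
          refine ⟨i v, ?_⟩
          rw [h1, hv]⟩, by
          rw [LinearMap.mem_ker]
          exact hpi y.1⟩
        map_add' := fun a b => Subtype.ext (Subtype.ext (map_add i a.1 b.1))
        map_smul' := fun c a => Subtype.ext (Subtype.ext (map_smul i c a.1)) }
    refine LinearMap.finrank_le_finrank_of_injective (f := e) fun a b hab => ?_
    have h5 := congrArg (fun z : LinearMap.ker g => ((z : LinearMap.range f) : V)) hab
    exact Subtype.ext (hi h5)
  rw [h4] at h3
  unfold rk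
  omega

end Pool.Agent.CRP
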