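import Mathlib
import Pool.Agent.CRP.Lin

/-!
CRP: the block bidiagonal maps `T_L(X, B)` (diagonal blocks `X`, blocks `B` below the diagonal).
-/

set_option autoImplicit false

namespace Pool.Agent.CRP

open Module

variable {K : Type*} [Field K] {U : Type*} [AddCommGroup U] [Module K U]

/-- extension by zero -/
def ex {L : ℕ} (v : Fin L → U) (t : ℕ) : U := if h : t < L then v ⟨t, h⟩ else 0

/-- shifted sequence -/
def pv (u : ℕ → U) : ℕ → U
  | 0 => 0
  | t + 1 => u t

theorem ex_lt {L : ℕ} (v : Fin L → U) {t : ℕ} (h : t < L) : ex v t = v ⟨t, h⟩ := dif_pos h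

theorem ex_ge {L : ℕ} (v : Fin L → U) {t : ℕ} (h : L ≤ t) : ex v t = 0 := dif_neg (by omega)

theorem ex_val {L : ℕ} (v : Fin L → U) (t : Fin L) : ex v t = v t := ex_lt v t.2

theorem ex_add {L : ℕ} (v w : Fin L → U) (t : ℕ) : ex (v + w) t = ex v t + ex w t := by
  unfold ex
  split <;> simp

theorem ex_smul {L : ℕ} (c : K) (v : Fin L → U) (t : ℕ) : ex (c • v) t = c • ex v t := by
  unfold ex
  split <;> simp

theorem pv_add (u v : ℕ → U) (t : ℕ) : pv (fun s => u s + v s) t = pv u t + pv v t := by
  cases t <;> simp [pv]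

theorem pv_smul (c : K) (u : ℕ → U) (t : ℕ) : pv (fun s => c • u s) t = c • pv u t := by
  cases t <;> simp [pv]

/-- shift -/
def sh (L : ℕ) : (Fin L → U) →ₗ[K] (Fin L → U) where
  toFun v t := pv (ex v) t
  map_add' v w := by
    ext t
    have h : ex (v + w) = fun s => ex v s + ex w s := funext fun s => ex_add v w s
    rw [h, pv_add]
    rfl
  map_smul' c v := by
    ext t
    have h : ex (c • v) = fun s => c • ex v s := funext fun s => ex_smul c v s
    rw [h, pv_smul]
    rfl

/-- `C` in every component -/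
def cw (L : ℕ) (C : U →ₗ[K] U) : (Fin L → U) →ₗ[K] (Fin L → U) where
  toFun v t := C (v t)
  map_add' v w := by
    ext t
    exact map_add C _ _
  map_smul' c v := by
    ext t
    exact map_smul C _ _

/-- block bidiagonal map -/
def T (L : ℕ) (X B : U →ₗ[K] U) : (Fin L → U) →ₗ[K] (Fin L → U) := cw L X + cw L B ∘ₗ sh L

theorem T_apply (L : ℕ) (X B : U →ₗ[K] U) (v : Fin L → U) (t : Fin L) :
    T L X B v t = X (v t) + B (pv (ex v) t) := rfl

theorem T_add (L : ℕ) (X B C : U →ₗ[K] U) (s : K) : T L (X + s • C) B = T L X B + s • cw L C := by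
  refine LinearMap.ext fun v => ?_
  ext t
  change (X (v t) + s • C (v t)) + B (pv (ex v) t) = (X (v t) + B (pv (ex v) t)) + s • C (v t)
  abel

/-- Clebsch-Gordan: the doubling of `T_(L+1)` has a submodule `T_L` and a quotient `T_(L+2)` -/
theorem cg [CharZero K] (L : ℕ) (X B : U →ₗ[K] U) :
    ∃ (i : (Fin L → U) →ₗ[K] (Fin (L + 1) → U) × (Fin (L + 1) → U))
      (p : (Fin (L + 1) → U) × (Fin (L + 1) → U) →ₗ[K] (Fin (L + 2) → U)),
      Function.Injective i ∧ Function.Surjective p ∧ (∀ v, p (i v) = 0) ∧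
      (∀ v, dbl (T (L + 1) X B) (cw (L + 1) B) (i v) = i (T L X B v)) ∧
      (∀ z, p (dbl (T (L + 1) X B) (cw (L + 1) B) z) = T (L + 2) X B (p z)) ∧
      (∀ v, (cw (L + 1) B).prodMap (cw (L + 1) B) (i v) = i (cw L B v)) ∧
      (∀ z, p ((cw (L + 1) B).prodMap (cw (L + 1) B) z) = cw (L + 2) B (p z)) := by
  let i1 : (Fin L → U) →ₗ[K] (Fin (L + 1) → U) :=
    { toFun := fun v t => pv (ex v) t
      map_add' := by
        intro v w
        ext t
        have h : ex (v + w) = fun s => ex v s + ex w s := funext fun s => ex_add v w s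
        rw [h, pv_add]
        rfl
      map_smul' := by
        intro c v
        ext t
        have h : ex (c • v) = fun s => c • ex v s := funext fun s => ex_smul c v s
        rw [h, pv_smul]
        rfl }
  let i2 : (Fin L → U) →ₗ[K] (Fin (L + 1) → U) :=
    { toFun := fun v t => -(((L : K) - (t : ℕ)) • ex v t)
      map_add' := by
        intro v w
        ext t
        rw [ex_add, smul_add, neg_add]
        rfl
      map_smul' := by
        intro c v
        ext t
        rw [ex_smul, smul_comm, ← smul_neg]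
        rfl }
  let p : (Fin (L + 1) → U) × (Fin (L + 1) → U) →ₗ[K] (Fin (L + 2) → U) :=
    { toFun := fun z t => ((L : K) + 1 - (t : ℕ)) • ex z.1 t + pv (ex z.2) t
      map_add' := by
        intro z z'
        ext t
        have h : ex (z.2 + z'.2) = fun s => ex z.2 s + ex z'.2 s := funext fun s => ex_add _ _ s
        change ((L : K) + 1 - (t : ℕ)) • ex (z.1 + z'.1) t + pv (ex (z.2 + z'.2)) t =
          (((L : K) + 1 - (t : ℕ)) • ex z.1 t + pv (ex z.2) t) +
            (((L : K) + 1 - (t : ℕ)) • ex z'.1 t + pv (ex z'.2) t)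
        rw [h, pv_add, ex_add, smul_add]
        abel
      map_smul' := by
        intro c z
        ext t
        have h : ex (c • z.2) = fun s => c • ex z.2 s := funext fun s => ex_smul c _ s
        change ((L : K) + 1 - (t : ℕ)) • ex (c • z.1) t + pv (ex (c • z.2)) t =
          c • (((L : K) + 1 - (t : ℕ)) • ex z.1 t + pv (ex z.2) t)
        rw [h, pv_smul, ex_smul, smul_add, smul_comm] }
  have i1_ex : ∀ (v : Fin L → U) (t : ℕ), t < L + 1 → ex (i1 v) t = pv (ex v) t := by
    intro v t ht
    rw [ex_lt _ ht]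
    rfl
  have i2_ex : ∀ (v : Fin L → U) (t : ℕ), t < L + 1 →
      ex (i2 v) t = -(((L : K) - (t : ℕ)) • ex v t) := by
    intro v t ht
    rw [ex_lt _ ht]
    rfl
  have p_ex : ∀ (z : (Fin (L + 1) → U) × (Fin (L + 1) → U)) (t : ℕ), t < L + 2 →
      ex (p z) t = ((L : K) + 1 - (t : ℕ)) • ex z.1 t + pv (ex z.2) t := by
    intro z t ht
    rw [ex_lt _ ht]
    rfl
  refine ⟨i1.prod i2, p, ?_, ?_, ?_, ?_, ?_, ?_, ?_⟩
  · intro v w hvw
    have h1 : i1 v = i1 w := congrArg Prod.fst hvw
    ext t
    have h2 := congrFun h1 ⟨t + 1, by omega⟩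
    have h3 : ex v t = ex w t := h2
    rwa [ex_val, ex_val] at h3
  · intro u
    refine ⟨(fun t => if (t : ℕ) = 0 then ((L : K) + 1)⁻¹ • u 0 else 0, fun t => u t.succ), ?_⟩
    ext t
    change ((L : K) + 1 - (t : ℕ)) • ex (fun t : Fin (L + 1) =>
      if (t : ℕ) = 0 then ((L : K) + 1)⁻¹ • u 0 else 0) t + pv (ex fun t : Fin (L + 1) => u t.succ) t = _
    obtain ⟨t, ht⟩ := t
    rcases t with _ | t
    · have h0 : ((L : K) + 1) ≠ 0 := by exact_mod_cast Nat.succ_ne_zero L
      rw [ex_lt _ (Nat.succ_pos L)]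
      change ((L : K) + 1 - ((0 : ℕ) : K)) • ((L : K) + 1)⁻¹ • u 0 + 0 = u 0
      rw [Nat.cast_zero, sub_zero, smul_smul, mul_inv_cancel₀ h0, one_smul, add_zero]
    · have h1 : ex (fun t : Fin (L + 1) =>
          if (t : ℕ) = 0 then ((L : K) + 1)⁻¹ • u 0 else 0) (t + 1) = 0 := by
        unfold ex
        split
        · exact if_neg (Nat.succ_ne_zero t)
        · rfl
      change ((L : K) + 1 - ((t + 1 : ℕ) : K)) • ex (fun t : Fin (L + 1) =>
        if (t : ℕ) = 0 then ((L : K) + 1)⁻¹ • u 0 else 0) (t + 1) +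
          ex (fun t : Fin (L + 1) => u t.succ) t = _
      rw [h1, smul_zero, zero_add, ex_lt _ (by omega)]
      rfl
  · intro v
    ext t
    change ((L : K) + 1 - (t : ℕ)) • ex (i1 v) t + pv (ex (i2 v)) t = 0
    obtain ⟨t, ht⟩ := t
    change ((L : K) + 1 - (t : ℕ)) • ex (i1 v) t + pv (ex (i2 v)) t = 0
    rcases t with _ | t
    · rw [i1_ex v 0 (Nat.succ_pos L)]
      change ((L : K) + 1 - ((0 : ℕ) : K)) • (0 : U) + 0 = 0
      rw [smul_zero, add_zero]
    · change ((L : K) + 1 - ((t + 1 : ℕ) : K)) • ex (i1 v) (t + 1) + ex (i2 v) t = 0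
      rw [i2_ex v t (by omega)]
      by_cases h : t + 1 < L + 1
      · rw [i1_ex v _ h]
        change ((L : K) + 1 - ((t + 1 : ℕ) : K)) • ex v t + _ = 0
        rw [← sub_eq_add_neg, ← sub_smul]
        push_cast
        rw [show (L : K) + 1 - ((t : K) + 1) - ((L : K) - t) = 0 by ring, zero_smul]
      · have h2 : t = L := by omega
        rw [ex_ge _ (by omega), ex_ge v (by omega), smul_zero, smul_zero, neg_zero, add_zero]
  · intro v
    refine Prod.ext ?_ ?_
    · ext t
      change X (pv (ex v) t) + B (pv (ex (i1 v)) t) = pv (ex (T L X B v)) t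
      obtain ⟨t, ht⟩ := t
      change X (pv (ex v) t) + B (pv (ex (i1 v)) t) = pv (ex (T L X B v)) t
      rcases t with _ | t
      · change X 0 + B 0 = 0
        rw [map_zero, map_zero, add_zero]
      · change X (ex v t) + B (ex (i1 v) t) = ex (T L X B v) t
        rw [i1_ex v t (by omega), ex_lt _ (show t < L by omega), ex_lt _ (show t < L by omega)]
        rfl
    · ext t
      change B (pv (ex v) t) + (X (-(((L : K) - (t : ℕ)) • ex v t)) + B (pv (ex (i2 v)) t)) =
        -(((L : K) - (t : ℕ)) • ex (T L X B v) t)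
      obtain ⟨t, ht⟩ := t
      change B (pv (ex v) t) + (X (-(((L : K) - (t : ℕ)) • ex v t)) + B (pv (ex (i2 v)) t)) =
        -(((L : K) - (t : ℕ)) • ex (T L X B v) t)
      by_cases h : t < L
      · have e1 : ex (T L X B v) t = X (ex v t) + B (pv (ex v) t) := by
          rw [ex_lt _ h, ex_lt _ h]
          rfl
        rw [e1]
        rcases t with _ | t
        · change B 0 + (X (-(((L : K) - ((0 : ℕ) : K)) • ex v 0)) + B 0) =
            -(((L : K) - ((0 : ℕ) : K)) • (X (ex v 0) + B 0))
          rw [map_zero, zero_add, add_zero, add_zero, map_neg, map_smul]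
        · change B (ex v t) + (X (-(((L : K) - ((t + 1 : ℕ) : K)) • ex v (t + 1))) +
            B (ex (i2 v) t)) = -(((L : K) - ((t + 1 : ℕ) : K)) • (X (ex v (t + 1)) + B (ex v t)))
          rw [i2_ex v t (by omega), map_neg, map_neg, map_smul, map_smul]
          push_cast
          module
      · have h2 : t = L := by omega
        subst h2
        rw [ex_ge v le_rfl, ex_ge (T t X B v) le_rfl, smul_zero, neg_zero, map_zero, zero_add]
        rcases t with _ | t
        · change B 0 + B 0 = 0
          rw [map_zero, add_zero]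
        · change B (ex v t) + B (ex (i2 v) t) = 0
          rw [i2_ex v t (by omega), map_neg, map_smul]
          push_cast
          module
  · intro z
    obtain ⟨v, w⟩ := z
    ext t
    change ((L : K) + 1 - (t : ℕ)) • ex (T (L + 1) X B v) t +
      pv (ex (cw (L + 1) B v + T (L + 1) X B w)) t =
      X (((L : K) + 1 - (t : ℕ)) • ex v t + pv (ex w) t) + B (pv (ex (p (v, w))) t)
    obtain ⟨t, ht⟩ := t
    change ((L : K) + 1 - (t : ℕ)) • ex (T (L + 1) X B v) t +
      pv (ex (cw (L + 1) B v + T (L + 1) X B w)) t =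
      X (((L : K) + 1 - (t : ℕ)) • ex v t + pv (ex w) t) + B (pv (ex (p (v, w))) t)
    have e1 : ∀ (v : Fin (L + 1) → U) (t : ℕ), t < L + 1 →
        ex (T (L + 1) X B v) t = X (ex v t) + B (pv (ex v) t) := by
      intro v t h
      rw [ex_lt _ h, ex_lt _ h]
      rfl
    have e2 : ∀ t : ℕ, t < L + 1 → ex (cw (L + 1) B v) t = B (ex v t) := by
      intro t h
      rw [ex_lt _ h, ex_lt _ h]
      rfl
    rcases t with _ | t
    · rw [e1 v 0 (Nat.succ_pos L)]
      change ((L : K) + 1 - ((0 : ℕ) : K)) • (X (ex v 0) + B 0) + 0 =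
        X (((L : K) + 1 - ((0 : ℕ) : K)) • ex v 0 + 0) + B 0
      rw [map_zero, add_zero, add_zero, add_zero, add_zero, map_smul]
    · change ((L : K) + 1 - ((t + 1 : ℕ) : K)) • ex (T (L + 1) X B v) (t + 1) +
        ex (cw (L + 1) B v + T (L + 1) X B w) t =
        X (((L : K) + 1 - ((t + 1 : ℕ) : K)) • ex v (t + 1) + ex w t) + B (ex (p (v, w)) t)
      rw [ex_add, e2 t (by omega), e1 w t (by omega), p_ex _ t (by omega)]
      change _ = X (((L : K) + 1 - ((t + 1 : ℕ) : K)) • ex v (t + 1) + ex w t) +
        B (((L : K) + 1 - (t : ℕ)) • ex v t + pv (ex w) t)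
      by_cases h : t + 1 < L + 1
      · rw [e1 v (t + 1) h]
        change ((L : K) + 1 - ((t + 1 : ℕ) : K)) • (X (ex v (t + 1)) + B (ex v t)) + _ = _
        rw [map_add, map_add, map_smul, map_smul]
        push_cast
        module
      · have h2 : t = L := by omega
        subst h2
        rw [ex_ge (T (t + 1) X B v) le_rfl, ex_ge v le_rfl, smul_zero, zero_add, zero_add, map_add,
          map_smul]
        module

  · intro v
    refine Prod.ext ?_ ?_
    · ext t
      obtain ⟨t, ht⟩ := t
      change B (pv (ex v) t) = pv (ex (cw L B v)) t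
      rcases t with _ | t
      · exact map_zero B
      · change B (ex v t) = ex (cw L B v) t
        rw [ex_lt _ (show t < L by omega), ex_lt _ (show t < L by omega)]
        rfl
    · ext t
      obtain ⟨t, ht⟩ := t
      change B (-(((L : K) - (t : ℕ)) • ex v t)) = -(((L : K) - (t : ℕ)) • ex (cw L B v) t)
      rw [map_neg, map_smul]
      congr 2
      by_cases h : t < L
      · rw [ex_lt _ h, ex_lt _ h]
        rfl
      · rw [ex_ge _ (not_lt.1 h), ex_ge _ (not_lt.1 h), map_zero]
  · intro z
    ext t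
    obtain ⟨t, ht⟩ := t
    have e2 : ∀ (v : Fin (L + 1) → U) (t : ℕ), ex (cw (L + 1) B v) t = B (ex v t) := by
      intro v t
      by_cases h : t < L + 1
      · rw [ex_lt _ h, ex_lt _ h]
        rfl
      · rw [ex_ge _ (not_lt.1 h), ex_ge _ (not_lt.1 h), map_zero]
    change ((L : K) + 1 - (t : ℕ)) • ex (cw (L + 1) B z.1) t + pv (ex (cw (L + 1) B z.2)) t =
      B (((L : K) + 1 - (t : ℕ)) • ex z.1 t + pv (ex z.2) t)
    rw [e2, map_add, map_smul]
    congr 1
    rcases t with _ | t
    · exact (map_zero B).symm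
    · exact e2 z.2 t

theorem rk_cw_le [FiniteDimensional K U] (L : ℕ) (C : U →ₗ[K] U) : rk (cw L C) ≤ L * rk C := by
  have h1 : cw L C = ∑ t : Fin L, LinearMap.single K (fun _ => U) t ∘ₗ C ∘ₗ
      LinearMap.proj (φ := fun _ : Fin L => U) t := by
    refine LinearMap.ext fun v => ?_
    ext s
    rw [LinearMap.sum_apply, Finset.sum_apply]
    change C (v s) = ∑ t : Fin L, Pi.single t (C (v t)) s
    rw [Finset.sum_pi_single]
    simp
  have h2 : ∀ (s : Finset (Fin L)) (f : Fin L → (Fin L → U) →ₗ[K] (Fin L → U)),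
      rk (∑ t ∈ s, f t) ≤ ∑ t ∈ s, rk (f t) := by
    intro s f
    induction s using Finset.induction_on with
    | empty => simp [rk_zero]
    | insert i s hi ih =>
      rw [Finset.sum_insert hi, Finset.sum_insert hi]
      exact (rk_add _ _).trans (Nat.add_le_add_left ih _)
  rw [h1]
  refine (h2 _ _).trans ?_
  refine (Finset.sum_le_card_nsmul _ _ (rk C) fun t _ => ?_).trans ?_
  · exact (rk_comp_le_left _ _).trans (rk_comp_le_right _ _)
  · rw [Finset.card_univ, Fintype.card_fin, smul_eq_mul]

/-- the blocks `B` on the diagonal, `X` above -/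
def F (L : ℕ) (X B : U →ₗ[K] U) : (Fin L → U) →ₗ[K] (Fin L → U) where
  toFun v t := B (v t) + X (ex v (t + 1))
  map_add' v w := by
    ext t
    change B (v t + w t) + X (ex (v + w) (t + 1)) =
      (B (v t) + X (ex v (t + 1))) + (B (w t) + X (ex w (t + 1)))
    rw [ex_add, map_add, map_add]
    abel
  map_smul' c v := by
    ext t
    change B (c • v t) + X (ex (c • v) (t + 1)) = c • (B (v t) + X (ex v (t + 1)))
    rw [ex_smul, map_smul, map_smul, smul_add]

theorem le_rk_F [FiniteDimensional K U] (L : ℕ) (X B : U →ₗ[K] U) :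
    L * rk B ≤ rk (F L X B) := by
  induction L with
  | zero => simp
  | succ L ih =>
    have h1 : rk B + rk (F L X B) ≤ rk (F (L + 1) X B) := by
      refine rk_sub_quot B _ _ (LinearMap.single K (fun _ : Fin (L + 1) => U) 0)
        { toFun := fun v t => v t.succ
          map_add' := fun _ _ => rfl
          map_smul' := fun _ _ => rfl } ?_ ?_ ?_ ?_ ?_
      · intro v w hvw
        have h2 := congrFun hvw 0
        simpa using h2
      · intro u
        refine ⟨Fin.cons 0 u, ?_⟩
        ext t
        rfl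
      · intro v
        ext t
        change (Pi.single 0 v : Fin (L + 1) → U) t.succ = 0
        exact Pi.single_eq_of_ne (Fin.succ_ne_zero t) v
      · intro v
        ext t
        change B ((Pi.single 0 v : Fin (L + 1) → U) t) +
          X (ex (Pi.single 0 v : Fin (L + 1) → U) (t + 1)) =
          (Pi.single 0 (B v) : Fin (L + 1) → U) t
        have h2 : ex (Pi.single 0 v : Fin (L + 1) → U) (t + 1) = 0 := by
          unfold ex
          split
          · rename_i hlt
            have h3 : (⟨(t : ℕ) + 1, hlt⟩ : Fin (L + 1)) ≠ 0 := by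
              intro h
              have := congrArg Fin.val h
              simp at this
            exact Pi.single_eq_of_ne h3 v
          · rfl
        rw [h2, map_zero, add_zero]
        by_cases ht : t = 0
        · subst ht
          rw [Pi.single_eq_same, Pi.single_eq_same]
        · rw [Pi.single_eq_of_ne ht, Pi.single_eq_of_ne ht, map_zero]
      · intro v
        ext t
        change B (v t.succ) + X (ex v (t.succ + 1)) =
          B (v t.succ) + X (ex (fun t : Fin L => v t.succ) (t + 1))
        congr 2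
        unfold ex
        rw [Fin.val_succ]
        by_cases h : (t : ℕ) + 1 < L
        · rw [dif_pos (by omega), dif_pos h]
          rfl
        · rw [dif_neg (by omega), dif_neg h]
    rw [Nat.succ_mul]
    omega

theorem le_rk_T [FiniteDimensional K U] (L : ℕ) (X B : U →ₗ[K] U) :
    L * rk B ≤ rk (T (L + 1) X B) := by
  refine (le_rk_F L X B).trans ?_
  let j : (Fin L → U) →ₗ[K] (Fin (L + 1) → U) :=
    { toFun := fun v t => ex v t
      map_add' := by
        intro v w
        ext t
        exact ex_add v w t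
      map_smul' := by
        intro c v
        ext t
        exact ex_smul c v t }
  let q : (Fin (L + 1) → U) →ₗ[K] (Fin L → U) :=
    { toFun := fun v t => v t.succ
      map_add' := fun _ _ => rfl
      map_smul' := fun _ _ => rfl }
  have h1 : F L X B = q ∘ₗ T (L + 1) X B ∘ₗ j := by
    refine LinearMap.ext fun v => ?_
    ext t
    change B (v t) + X (ex v (t + 1)) = X (ex v (t.succ : ℕ)) + B (pv (ex (j v)) (t.succ : ℕ))
    have h2 : pv (ex (j v)) (t.succ : ℕ) = v t := by
      rw [Fin.val_succ]
      change ex (j v) t = v t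
      rw [ex_lt _ (show (t : ℕ) < L + 1 by omega)]
      exact ex_val v t
    rw [h2, Fin.val_succ, add_comm]
  rw [h1]
  exact (rk_comp_le_left _ _).trans (rk_comp_le_right _ _)

end Pool.Agent.CRP
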