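import Mathlib
import Pool.Agent.CRP.Jor

/-!
CRP: iterated doubling.
-/

set_option autoImplicit false

namespace Pool.Agent.CRP

open Module

universe u v

variable {K : Type u} [Field K]

/-- rank of the `q`-fold doubling of `X` by `B` -/
noncomputable def psi (K : Type u) [Field K] : ℕ → ∀ (V : Type v) [AddCommGroup V] [Module K V],
    (V →ₗ[K] V) → (V →ₗ[K] V) → ℕ
  | 0, _, _, _, X, _ => rk X
  | q + 1, V, _, _, X, B => psi K q (V × V) (dbl X B) (B.prodMap B)

theorem psi_zero (V : Type v) [AddCommGroup V] [Module K V] (X B : V →ₗ[K] V) :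
    psi K 0 V X B = rk X := rfl

theorem psi_succ (q : ℕ) (V : Type v) [AddCommGroup V] [Module K V] (X B : V →ₗ[K] V) :
    psi K (q + 1) V X B = psi K q (V × V) (dbl X B) (B.prodMap B) := rfl

theorem dbl_apply {V W : Type*} [AddCommGroup V] [Module K V] [AddCommGroup W] [Module K W]
    (X C : V →ₗ[K] W) (z : V × V) : dbl X C z = (X z.1, C z.1 + X z.2) := rfl

/-- sub and quotient -/
theorem psi_sub_quot (q : ℕ) : ∀ (V V' V'' : Type v) [AddCommGroup V] [Module K V]
    [FiniteDimensional K V] [AddCommGroup V'] [Module K V'] [AddCommGroup V''] [Module K V'']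
    (X B : V →ₗ[K] V) (X' B' : V' →ₗ[K] V') (X'' B'' : V'' →ₗ[K] V'')
    (i : V' →ₗ[K] V) (p : V →ₗ[K] V''), Function.Injective i → Function.Surjective p →
    (∀ v, p (i v) = 0) → (∀ v, X (i v) = i (X' v)) → (∀ v, p (X v) = X'' (p v)) →
    (∀ v, B (i v) = i (B' v)) → (∀ v, p (B v) = B'' (p v)) →
    psi K q V' X' B' + psi K q V'' X'' B'' ≤ psi K q V X B := by
  induction q with
  | zero =>
    intro V V' V'' _ _ _ _ _ _ _ X B X' B' X'' B'' i p hi hp hpi h1 h2 _ _
    exact rk_sub_quot X' X X'' i p hi hp hpi h1 h2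
  | succ q ih =>
    intro V V' V'' _ _ _ _ _ _ _ X B X' B' X'' B'' i p hi hp hpi h1 h2 h3 h4
    rw [psi_succ, psi_succ, psi_succ]
    refine ih (V × V) (V' × V') (V'' × V'') _ _ _ _ _ _ (i.prodMap i) (p.prodMap p) ?_ ?_ ?_ ?_ ?_
      ?_ ?_
    · exact Function.Injective.prodMap hi hi
    · exact Function.Surjective.prodMap hp hp
    · rintro ⟨v, w⟩
      exact Prod.ext (hpi v) (hpi w)
    · rintro ⟨v, w⟩
      refine Prod.ext (h1 v) ?_
      change B (i v) + X (i w) = i (B' v + X' w)
      rw [h3, h1, map_add]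
    · rintro ⟨v, w⟩
      refine Prod.ext (h2 v) ?_
      change p (B v + X w) = B'' (p v) + X'' (p w)
      rw [map_add, h4, h2]
    · rintro ⟨v, w⟩
      exact Prod.ext (h3 v) (h3 w)
    · rintro ⟨v, w⟩
      exact Prod.ext (h4 v) (h4 w)

/-- number of walks of length `q` from `L` which stay positive -/
def wlk : ℕ → ℕ → ℕ
  | _, 0 => 0
  | 0, _ + 1 => 1
  | q + 1, L + 1 => wlk q L + wlk q (L + 2)

theorem wlk_zero (q : ℕ) : wlk q 0 = 0 := by
  cases q <;> rfl

/-- lower bound -/
theorem psi_low [CharZero K] {U : Type v} [AddCommGroup U] [Module K U] [FiniteDimensional K U]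
    (B : U →ₗ[K] U) (q : ℕ) : ∀ L : ℕ, L * 2 ^ q * rk B ≤
      psi K q (Fin L → U) (T L 0 B) (cw L B) + wlk q L * rk B := by
  induction q with
  | zero =>
    intro L
    rw [psi_zero, pow_zero, mul_one]
    rcases L with _ | L
    · simp
    · have h1 := le_rk_T L (0 : U →ₗ[K] U) B
      change (L + 1) * rk B ≤ rk (T (L + 1) 0 B) + 1 * rk B
      rw [Nat.succ_mul, one_mul]
      exact Nat.add_le_add_right h1 _
  | succ q ih =>
    intro L
    rcases L with _ | L
    · simp
    · obtain ⟨i, p, hi, hp, hpi, h1, h2, h3, h4⟩ := cg L (0 : U →ₗ[K] U) B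
      have h5 := psi_sub_quot q _ _ _ _ _ _ _ _ _ i p hi hp hpi h1 h2 h3 h4
      have h6 := ih L
      have h7 := ih (L + 2)
      rw [psi_succ]
      change _ ≤ _ + (wlk q L + wlk q (L + 2)) * rk B
      have e1 : (L + 1) * 2 ^ (q + 1) * rk B = L * 2 ^ q * rk B + (L + 2) * 2 ^ q * rk B := by
        ring
      have e2 : (wlk q L + wlk q (L + 2)) * rk B = wlk q L * rk B + wlk q (L + 2) * rk B :=
        Nat.add_mul _ _ _
      rw [e1, e2]
      omega

theorem wlk_eq (q : ℕ) : ∀ L, wlk q L = ∑ i ∈ Finset.range (q + 1),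
    if q < 2 * i + L ∧ 2 * i ≤ q + L then q.choose i else 0 := by
  induction q with
  | zero =>
    intro L
    rcases L with _ | L
    · simp [wlk]
    · simp [wlk]
  | succ q ih =>
    intro L
    rcases L with _ | L
    · rw [wlk_zero]
      symm
      refine Finset.sum_eq_zero fun i _ => if_neg ?_
      omega
    · change wlk q L + wlk q (L + 2) = _
      rw [ih, ih, Finset.sum_range_succ' _ (q + 1)]
      have e1 : ∀ i, (q + 1).choose (i + 1) = q.choose i + q.choose (i + 1) :=
        fun i => Nat.choose_succ_succ q i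
      have e2 : ∑ i ∈ Finset.range (q + 1), (if q + 1 < 2 * (i + 1) + (L + 1) ∧
          2 * (i + 1) ≤ q + 1 + (L + 1) then (q + 1).choose (i + 1) else 0) =
          (∑ i ∈ Finset.range (q + 1), if q < 2 * i + (L + 2) ∧ 2 * i ≤ q + L
            then q.choose i else 0) +
          ∑ i ∈ Finset.range (q + 1), if q < 2 * (i + 1) + L ∧ 2 * (i + 1) ≤ q + (L + 2)
            then q.choose (i + 1) else 0 := by
        rw [← Finset.sum_add_distrib]
        refine Finset.sum_congr rfl fun i _ => ?_
        rw [e1]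
        by_cases h : q + 1 < 2 * (i + 1) + (L + 1) ∧ 2 * (i + 1) ≤ q + 1 + (L + 1)
        · rw [if_pos h, if_pos (by omega), if_pos (by omega)]
        · rw [if_neg h, if_neg (by omega), if_neg (by omega)]
      have e3 : (∑ i ∈ Finset.range (q + 1), if q < 2 * (i + 1) + L ∧
          2 * (i + 1) ≤ q + (L + 2) then q.choose (i + 1) else 0) +
          (if q < 2 * 0 + L ∧ 2 * 0 ≤ q + (L + 2) then q.choose 0 else 0) =
          ∑ i ∈ Finset.range (q + 1), if q < 2 * i + L ∧ 2 * i ≤ q + (L + 2)
            then q.choose i else 0 := by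
        rw [← Finset.sum_range_succ' (fun i => if q < 2 * i + L ∧ 2 * i ≤ q + (L + 2)
          then q.choose i else 0) (q + 1), Finset.sum_range_succ]
        rw [Nat.choose_eq_zero_of_lt (Nat.lt_succ_self q)]
        simp
      have e4 : (if q + 1 < 2 * 0 + (L + 1) ∧ 2 * 0 ≤ q + 1 + (L + 1) then (q + 1).choose 0
          else 0) = if q < 2 * 0 + L ∧ 2 * 0 ≤ q + (L + 2) then q.choose 0 else 0 := by
        rw [Nat.choose_zero_right, Nat.choose_zero_right]
        by_cases h : q < L
        · rw [if_pos (by omega), if_pos (by omega)]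
        · rw [if_neg (by omega), if_neg (by omega)]
      rw [e2, e4, add_assoc, e3, ← Finset.sum_add_distrib, ← Finset.sum_add_distrib]
      refine Finset.sum_congr rfl fun i _ => ?_
      by_cases h1 : q < 2 * i + L
      · by_cases h2 : 2 * i ≤ q + L
        · rw [if_pos (by omega), if_pos (by omega), if_pos (by omega), if_pos (by omega)]
        · by_cases h3 : 2 * i ≤ q + (L + 2)
          · rw [if_neg (by omega), if_pos (by omega), if_neg (by omega), if_pos (by omega)]
          · rw [if_neg (by omega), if_neg (by omega), if_neg (by omega), if_neg (by omega)]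
      · by_cases h2 : q < 2 * i + (L + 2)
        · rw [if_neg (by omega), if_pos (by omega), if_pos (by omega), if_neg (by omega), add_comm]
        · rw [if_neg (by omega), if_neg (by omega), if_neg (by omega), if_neg (by omega)]

theorem wlk_one (q : ℕ) : wlk q 1 = q.choose (q / 2) := by
  rw [wlk_eq, Finset.sum_eq_single ((q + 1) / 2)]
  · rw [if_pos (by omega)]
    rcases Nat.even_or_odd' q with ⟨j, hj | hj⟩
    · congr 1
      omega
    · have e1 : (q + 1) / 2 = j + 1 := by omega
      have e2 : q / 2 = j := by omega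
      rw [e1, e2, hj]
      exact (Nat.choose_symm_half j)
  · intro i _ hi
    exact if_neg (by omega)
  · intro h
    exact absurd (Finset.mem_range.2 (by omega)) h

/-- central binomial coefficients are small -/
theorem central_sq (j : ℕ) : (2 * j + 1) * (Nat.centralBinom j) ^ 2 ≤ 16 ^ j := by
  induction j with
  | zero => simp
  | succ j ih =>
    have h1 := Nat.succ_mul_centralBinom_succ j
    have h2 : (j + 1) ^ 2 * ((2 * (j + 1) + 1) * (Nat.centralBinom (j + 1)) ^ 2) ≤
        (j + 1) ^ 2 * 16 ^ (j + 1) := by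
      calc (j + 1) ^ 2 * ((2 * (j + 1) + 1) * (Nat.centralBinom (j + 1)) ^ 2)
          = (2 * (j + 1) + 1) * ((j + 1) * Nat.centralBinom (j + 1)) ^ 2 := by ring
        _ = (4 * ((2 * j + 3) * (2 * j + 1))) * ((2 * j + 1) * (Nat.centralBinom j) ^ 2) := by
            rw [h1]
            ring
        _ ≤ (16 * (j + 1) ^ 2) * 16 ^ j := by
            refine Nat.mul_le_mul ?_ ih
            nlinarith
        _ = (j + 1) ^ 2 * 16 ^ (j + 1) := by ring
    exact Nat.le_of_mul_le_mul_left h2 (by positivity)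

theorem choose_half (k q : ℕ) (h : k ^ 2 ≤ q) : k * q.choose (q / 2) ≤ 2 ^ q := by
  rcases Nat.even_or_odd' q with ⟨j, hj | hj⟩
  · have e1 : q / 2 = j := by omega
    have h1 := central_sq j
    rw [Nat.centralBinom_eq_two_mul_choose] at h1
    rw [e1, hj]
    have h2 : (k * (2 * j).choose j) ^ 2 ≤ (2 ^ (2 * j)) ^ 2 := by
      calc (k * (2 * j).choose j) ^ 2 = k ^ 2 * ((2 * j).choose j) ^ 2 := by ring
        _ ≤ (2 * j + 1) * ((2 * j).choose j) ^ 2 := Nat.mul_le_mul_right _ (by omega)
        _ ≤ 16 ^ j := h1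
        _ = (2 ^ (2 * j)) ^ 2 := by
            rw [← pow_mul, mul_comm (2 * j) 2, ← mul_assoc, pow_mul]
            norm_num
    exact (Nat.pow_le_pow_iff_left two_ne_zero).1 h2
  · have e1 : q / 2 = j := by omega
    rw [e1, hj]
    have h0 : 2 * (2 * j + 1).choose j = (2 * (j + 1)).choose (j + 1) := by
      have e2 : 2 * (j + 1) = (2 * j + 1) + 1 := by ring
      rw [e2, Nat.choose_succ_succ, Nat.choose_symm_half]
      ring
    have h1 := central_sq (j + 1)
    rw [Nat.centralBinom_eq_two_mul_choose, ← h0] at h1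
    have h2 : (k * (2 * j + 1).choose j) ^ 2 ≤ (2 ^ (2 * j + 1)) ^ 2 := by
      have h3 : 4 * (k * (2 * j + 1).choose j) ^ 2 ≤ 4 * (2 ^ (2 * j + 1)) ^ 2 := by
        calc 4 * (k * (2 * j + 1).choose j) ^ 2
            = k ^ 2 * (2 * (2 * j + 1).choose j) ^ 2 := by ring
          _ ≤ (2 * (j + 1) + 1) * (2 * (2 * j + 1).choose j) ^ 2 :=
              Nat.mul_le_mul_right _ (by omega)
          _ ≤ 16 ^ (j + 1) := h1
          _ = 4 * (2 ^ (2 * j + 1)) ^ 2 := by
              rw [← pow_mul, show (16 : ℕ) = 2 ^ 4 by norm_num, show (4 : ℕ) = 2 ^ 2 by norm_num,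
                ← pow_mul, ← pow_add]
              congr 1
              ring
      exact Nat.le_of_mul_le_mul_left h3 (by norm_num)
    exact (Nat.pow_le_pow_iff_left two_ne_zero).1 h2

end Pool.Agent.CRP
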