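import Mathlib
import Pool.Agent.CRP.Psi
import Pool.Agent.BNR.Points

/-!
CRP: combinations of `q` points with the factor two property attain the part
`1 - (q choose q/2) / 2^q` of the generic rank.
-/

set_option autoImplicit false

namespace Pool.Agent.CRP

open Module

universe u v

variable {K : Type u} [Field K] {m : ℕ}

/-- factor two property of a set of points, for the linear maps of a space -/
def Two (P : Set (Fin m → K)) (V : Type*) [AddCommGroup V] [Module K V] : Prop :=
  ∀ (g : Fin m → V →ₗ[K] V) (x : Fin m → K),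
    ∃ p ∈ P, rk (∑ e, x e • g e) ≤ 2 * rk (∑ e, p e • g e)

theorem two_pts [CharZero K] (V : Type*) [AddCommGroup V] [Module K V] [FiniteDimensional K V]
    (N D : ℕ) (hD : finrank K V ≤ D) (hN : 2 * (m * D ^ 2) < N) :
    Two {p : Fin m → K | ∃ t j : ℕ, t ≤ D * N * N ∧ j < 2 * N - 1 ∧
      p = fun e : Fin m => ((Pool.Agent.BNR.pts N t j (e : ℕ) : ℤ) : K)} V := by
  intro g x
  let b := finBasis K V
  have hN' : 2 * (m * finrank K V ^ 2) < N := by
    have h1 : finrank K V ^ 2 ≤ D ^ 2 := Nat.pow_le_pow_left hD 2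
    have h2 := Nat.mul_le_mul_left m h1
    omega
  obtain ⟨t, j, ht, hj, h⟩ := Pool.Agent.BNR.points_comm N hN'
    (fun e => LinearMap.toMatrix b b (g e)) x
  have key : ∀ y : Fin m → K, (∑ e, y e • LinearMap.toMatrix b b (g e)).rank =
      rk (∑ e, y e • g e) := by
    intro y
    have h1 : ∑ e, y e • LinearMap.toMatrix b b (g e) =
        LinearMap.toMatrix b b (∑ e, y e • g e) := by
      rw [map_sum]
      exact Finset.sum_congr rfl fun e _ => (map_smul _ _ _).symm
    rw [h1, Matrix.rank_eq_finrank_range_toLin _ b b, Matrix.toLin_toMatrix]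
    rfl
  refine ⟨_, ⟨t, j, ht.trans ?_, hj, rfl⟩, ?_⟩
  · exact Nat.mul_le_mul_right _ (Nat.mul_le_mul_right _ hD)
  · rw [← key, ← key]
    exact h

theorem step {V : Type*} [AddCommGroup V] [Module K V] [FiniteDimensional K V]
    {P : Set (Fin m → K)} (hP : Two P V) (X : V →ₗ[K] V) (g : Fin m → V →ₗ[K] V)
    (x : Fin m → K) :
    ∃ p ∈ P, {s : K | 2 * rk (X + s • ∑ e, p e • g e) < rk (dbl X (∑ e, x e • g e))}.Finite := by
  obtain ⟨G, hG⟩ := exists_ginv X
  have hv : ∀ y : Fin m → K, vis X G (∑ e, y e • g e) = ∑ e, y e • vis X G (g e) := by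
    intro y
    refine LinearMap.ext fun v => ?_
    rw [vis_apply]
    simp only [LinearMap.sum_apply, LinearMap.smul_apply, vis_apply, map_sum, map_smul, smul_sub,
      Finset.sum_sub_distrib]
  obtain ⟨p, hp, h1⟩ := hP (fun e => vis X G (g e)) x
  refine ⟨p, hp, (rk_vis_le X G hG (∑ e, p e • g e)).subset fun s hs => ?_⟩
  have h2 := rk_dbl_le X G hG (∑ e, x e • g e)
  rw [hv] at h2
  have h3 : 2 * rk (X + s • ∑ e, p e • g e) < rk (dbl X (∑ e, x e • g e)) := hs
  change rk (X + s • ∑ e, p e • g e) < rk X + rk (vis X G (∑ e, p e • g e))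
  rw [hv]
  omega

/-- the value of the family at a point -/
def A {U : Type*} [AddCommGroup U] [Module K U] (g : Fin m → U →ₗ[K] U) (x : Fin m → K) :
    U →ₗ[K] U := ∑ e, x e • g e

theorem A_zero {U : Type*} [AddCommGroup U] [Module K U] (g : Fin m → U →ₗ[K] U) :
    A g (0 : Fin m → K) = 0 := by
  unfold A
  simp

theorem A_add {U : Type*} [AddCommGroup U] [Module K U] (g : Fin m → U →ₗ[K] U)
    (x y : Fin m → K) (s : K) : A g (x + s • y) = A g x + s • A g y := by
  unfold A
  rw [Finset.smul_sum, ← Finset.sum_add_distrib]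
  refine Finset.sum_congr rfl fun e _ => ?_
  rw [Pi.add_apply, Pi.smul_apply, add_smul, smul_assoc]

theorem A_prod {U : Type*} [AddCommGroup U] [Module K U] (g : Fin m → U →ₗ[K] U)
    (y : Fin m → K) : A (fun e => (g e).prodMap (g e)) y = (A g y).prodMap (A g y) := by
  unfold A
  refine LinearMap.ext fun z => ?_
  simp only [LinearMap.sum_apply, LinearMap.smul_apply, LinearMap.prodMap_apply]
  refine Prod.ext ?_ ?_
  · rw [Prod.fst_sum]
    rfl
  · rw [Prod.snd_sum]
    rfl

theorem A_cw {U : Type*} [AddCommGroup U] [Module K U] (g : Fin m → U →ₗ[K] U) (L : ℕ)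
    (y : Fin m → K) : A (fun e => cw L (g e)) y = cw L (A g y) := by
  unfold A
  refine LinearMap.ext fun v => ?_
  ext t
  simp only [LinearMap.sum_apply, Finset.sum_apply, LinearMap.smul_apply, Pi.smul_apply]
  change ∑ e, y e • g e (v t) = (∑ e, y e • g e) (v t)
  simp only [LinearMap.sum_apply, LinearMap.smul_apply]

theorem dbl_add {V : Type*} [AddCommGroup V] [Module K V] (X C B : V →ₗ[K] V) :
    dbl X B + C.prodMap C = dbl (X + C) B := by
  refine LinearMap.ext fun z => ?_
  refine Prod.ext rfl ?_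
  change (B z.1 + X z.2) + C z.2 = B z.1 + (X z.2 + C z.2)
  abel

/-- combinations of `q` elements of `P` -/
def cmb (P : Set (Fin m → K)) : ℕ → Set (Fin m → K)
  | 0 => {0}
  | q + 1 => {z | ∃ z' ∈ cmb P q, ∃ s : K, ∃ p ∈ P, z = z' + s • p}

/-- upper bound for the rank of the iterated doubling -/
theorem psi_up [CharZero K] {P : Set (Fin m → K)} (D : ℕ)
    (hP : ∀ (V : Type v) [AddCommGroup V] [Module K V] [FiniteDimensional K V],
      finrank K V ≤ D → Two P V) (x : Fin m → K) (q : ℕ) :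
    ∀ (V : Type v) [AddCommGroup V] [Module K V] [FiniteDimensional K V], 2 ^ q * finrank K V ≤ D →
      ∀ (X : V →ₗ[K] V) (g : Fin m → V →ₗ[K] V),
        ∃ z ∈ cmb P q, psi K q V X (A g x) ≤ 2 ^ q * rk (X + A g z) := by
  induction q with
  | zero =>
    intro V _ _ _ _ X g
    refine ⟨0, rfl, ?_⟩
    rw [A_zero, add_zero, pow_zero, one_mul]
    exact le_rfl
  | succ q ih =>
    intro V _ _ _ hV X g
    have e0 : 2 ^ (q + 1) * finrank K V = 2 ^ q * (2 * finrank K V) := by ring
    obtain ⟨z, hz, h1⟩ := ih (V × V) (by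
      rw [finrank_prod]
      have e1 : finrank K V + finrank K V = 2 * finrank K V := (two_mul _).symm
      rw [e1, ← e0]
      exact hV) (dbl X (A g x)) (fun e => (g e).prodMap (g e))
    rw [A_prod, A_prod, dbl_add] at h1
    have hVD : finrank K V ≤ D := by
      have e1 : 1 * finrank K V ≤ 2 ^ (q + 1) * finrank K V :=
        Nat.mul_le_mul_right _ Nat.one_le_two_pow
      omega
    obtain ⟨p, hp, hfin⟩ := step (hP V hVD) (X + A g z) g x
    obtain ⟨s, hs⟩ := hfin.infinite_compl.nonempty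
    have h2 : rk (dbl (X + A g z) (A g x)) ≤ 2 * rk (X + A g z + s • A g p) := not_lt.1 hs
    refine ⟨z + s • p, ⟨z, hz, s, p, hp, rfl⟩, ?_⟩
    rw [psi_succ, A_add, ← add_assoc]
    refine h1.trans ?_
    calc 2 ^ q * rk (dbl (X + A g z) (A g x)) ≤ 2 ^ q * (2 * rk (X + A g z + s • A g p)) :=
          Nat.mul_le_mul_left _ h2
      _ = 2 ^ (q + 1) * rk (X + A g z + s • A g p) := by ring

section

variable {U : Type v} [AddCommGroup U] [Module K U] [FiniteDimensional K U]
  (g : Fin m → U →ₗ[K] U)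

/-- approximation by combinations of `q` points -/
theorem approx [CharZero K] {P : Set (Fin m → K)} (D : ℕ)
    (hP : ∀ (V : Type v) [AddCommGroup V] [Module K V] [FiniteDimensional K V],
      finrank K V ≤ D → Two P V) (q : ℕ) (hD : 2 ^ q * finrank K U ≤ D) (x : Fin m → K) :
    ∃ z ∈ cmb P q, 2 ^ q * rk (A g x) ≤ 2 ^ q * rk (A g z) + q.choose (q / 2) * rk (A g x) := by
  have hf : finrank K (Fin 1 → U) = finrank K U := by
    rw [finrank_pi_fintype]
    simp
  obtain ⟨z, hz, h1⟩ := psi_up D hP x q (Fin 1 → U) (by rw [hf]; exact hD) (T 1 0 (A g x))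
    (fun e => cw 1 (g e))
  refine ⟨z, hz, ?_⟩
  have h2 := psi_low (A g x) q 1
  rw [wlk_one] at h2
  rw [A_cw, A_cw] at h1
  have h3 : T 1 0 (A g x) = 0 := by
    refine LinearMap.ext fun v => ?_
    ext t
    rw [T_apply]
    have h2 : (t : ℕ) = 0 := by omega
    rw [h2]
    change (0 : U →ₗ[K] U) (v t) + A g x 0 = 0
    rw [map_zero, add_zero, LinearMap.zero_apply]
  have h4 : rk (T 1 0 (A g x) + cw 1 (A g z)) ≤ rk (A g z) := by
    rw [h3, zero_add]
    have h5 := rk_cw_le 1 (A g z)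
    omega
  have h5 := Nat.mul_le_mul_left (2 ^ q) h4
  rw [one_mul] at h2
  omega

/-- scalars replaced by small natural numbers -/
theorem nat_comb [CharZero K] (n : ℕ) (hn : finrank K U ≤ n) (P : Set (Fin m → K)) (q : ℕ) :
    ∀ z ∈ cmb P q, ∀ w : Fin m → K, ∃ (y : Fin q → ℕ) (p : Fin q → Fin m → K),
      (∀ i, y i ≤ n) ∧ (∀ i, p i ∈ P) ∧
      rk (A g (w + z)) ≤ rk (A g (w + ∑ i, (y i : K) • p i)) := by
  classical
  induction q with
  | zero =>
    rintro z rfl w
    exact ⟨fun i => i.elim0, fun i => i.elim0, fun i => i.elim0, fun i => i.elim0, by simp⟩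
  | succ q ih =>
    rintro z ⟨z', hz', s, p, hp, rfl⟩ w
    obtain ⟨y, p', hy, hp', h⟩ := ih z' hz' (w + s • p)
    set w' := w + ∑ i, (y i : K) • p' i with hw'
    have h1 : w + s • p + ∑ i, (y i : K) • p' i = w' + s • p := by
      rw [hw']
      abel
    rw [h1] at h
    obtain ⟨c, hc, h2⟩ := sc_finset (A g (w' + s • p)) (A g p)
      ((Finset.range (n + 1)).image fun y : ℕ => (y : K) - s) (by
        rw [Finset.card_image_of_injective _ (fun a b hab => by
          exact Nat.cast_injective (sub_left_injective hab)), Finset.card_range]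
        exact Nat.lt_succ_of_le ((rk_le_dom _).trans hn))
    obtain ⟨y0, hy0, rfl⟩ := Finset.mem_image.1 hc
    rw [← A_add] at h2
    refine ⟨Fin.cons y0 y, Fin.cons p p', ?_, ?_, ?_⟩
    · intro i
      refine Fin.cases ?_ (fun i => ?_) i
      · exact Nat.le_of_lt_succ (Finset.mem_range.1 hy0)
      · exact hy i
    · intro i
      refine Fin.cases ?_ (fun i => ?_) i
      · exact hp
      · exact hp' i
    · rw [Fin.sum_univ_succ]
      simp only [Fin.cons_zero, Fin.cons_succ]
      have h3 : w + (z' + s • p) = w + s • p + z' := by abel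
      have h4 : w + ((y0 : K) • p + ∑ i, (y i : K) • p' i) =
          w' + s • p + ((y0 : K) - s) • p := by
        rw [hw', sub_smul]
        abel
      rw [h3, h4]
      exact h.trans h2

end

/-- matrices -/
theorem ptas [CharZero K] (n N q : ℕ) (hN : 2 * (m * (n * 2 ^ q) ^ 2) < N)
    (L : Fin m → Matrix (Fin n) (Fin n) K) (x : Fin m → K) :
    ∃ y t j : Fin q → ℕ, (∀ i, y i ≤ n ∧ t i ≤ n * 2 ^ q * N * N ∧ j i < 2 * N - 1) ∧
      2 ^ q * (∑ e, x e • L e).rank ≤
        2 ^ q * (∑ e : Fin m, ((∑ i, (y i : ℤ) * Pool.Agent.BNR.pts N (t i) (j i) (e : ℕ) : ℤ) : K)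
          • L e).rank + q.choose (q / 2) * (∑ e, x e • L e).rank := by
  have key : ∀ y : Fin m → K, (∑ e, y e • L e).rank =
      rk (A (fun e => Matrix.toLin' (L e)) y) := by
    intro y
    have h1 : A (fun e => Matrix.toLin' (L e)) y = Matrix.toLin' (∑ e, y e • L e) := by
      unfold A
      rw [map_sum]
      exact Finset.sum_congr rfl fun e _ => (map_smul _ _ _).symm
    rw [h1]
    rfl
  obtain ⟨z, hz, h1⟩ := approx (fun e => Matrix.toLin' (L e)) (n * 2 ^ q)
    (fun V _ _ _ hV => two_pts V N (n * 2 ^ q) hV hN) q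
    (by rw [finrank_fin_fun, mul_comm]) x
  obtain ⟨y, p, hy, hp, h2⟩ := nat_comb (fun e => Matrix.toLin' (L e)) n
    (by rw [finrank_fin_fun]) _ q z hz 0
  choose t j ht hj hpe using hp
  refine ⟨y, t, j, fun i => ⟨hy i, ht i, hj i⟩, ?_⟩
  rw [zero_add, zero_add] at h2
  rw [key, key]
  have h3 : (fun e : Fin m => ((∑ i, (y i : ℤ) * Pool.Agent.BNR.pts N (t i) (j i) (e : ℕ) : ℤ) : K))
      = ∑ i, (y i : K) • p i := by
    funext e
    rw [Finset.sum_apply]
    push_cast
    refine Finset.sum_congr rfl fun i _ => ?_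
    rw [Pi.smul_apply, smul_eq_mul, hpe i]
  rw [h3]
  have h4 := Nat.mul_le_mul_left (2 ^ q) h2
  omega

end Pool.Agent.CRP
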