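import Mathlib
import Pool.Agent.CRP.Psi
import Pool.Agent.BNR.Grid

/-!
CRP: operators of matrices of polynomials in one endomorphism, their iterated doubling.
-/

set_option autoImplicit false

namespace Pool.Agent.CRP

open Module Polynomial

universe u v

variable {K : Type u} [Field K] {n : ℕ}

/-- value of a polynomial at an endomorphism -/
noncomputable def av {E : Type*} [AddCommGroup E] [Module K E] (Y : E →ₗ[K] E) :
    K[X] →ₐ[K] Module.End K E := aeval (R := K) (A := Module.End K E) Y

section

variable {E : Type*} [AddCommGroup E] [Module K E] (Y : E →ₗ[K] E)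

theorem av_C (a : K) (v : E) : av Y (C a) v = a • v := by
  unfold av
  rw [aeval_C]
  rfl

theorem av_X (v : E) : av Y X v = Y v := by
  unfold av
  rw [aeval_X]

theorem av_mulX (q : K[X]) (v : E) : av Y (q * X) v = av Y q (Y v) := by
  rw [map_mul]
  change av Y q (av Y X v) = _
  rw [av_X]

theorem av_addp (q r : K[X]) (v : E) : av Y (q + r) v = av Y q v + av Y r v := by
  rw [map_add]
  rfl

/-- an induction principle for polynomials -/
theorem pol_ind {P : K[X] → Prop} (hC : ∀ a, P (C a)) (ha : ∀ q r, P q → P r → P (q + r))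
    (hX : ∀ q, P q → P (q * X)) (q : K[X]) : P q := by
  refine Polynomial.induction_on q hC ha ?_
  intro k a h
  rw [pow_succ, ← mul_assoc]
  exact hX _ h

theorem av_int {E' : Type*} [AddCommGroup E'] [Module K E'] (Y' : E' →ₗ[K] E')
    (i : E' →ₗ[K] E) (h : ∀ v, Y (i v) = i (Y' v)) (q : K[X]) :
    ∀ v, av Y q (i v) = i (av Y' q v) := by
  refine pol_ind (P := fun q => ∀ v, av Y q (i v) = i (av Y' q v)) ?_ ?_ ?_ q
  · intro a v
    rw [av_C, av_C, map_smul]
  · intro q r hq hr v
    rw [av_addp, av_addp, map_add, hq, hr]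
  · intro q hq v
    rw [av_mulX, av_mulX, h, hq]

theorem av_dbl (q : K[X]) : ∀ z : E × E, av (dbl Y LinearMap.id) q z =
    (av Y q z.1, av Y (derivative q) z.1 + av Y q z.2) := by
  refine pol_ind (P := fun q => ∀ z : E × E, av (dbl Y LinearMap.id) q z =
    (av Y q z.1, av Y (derivative q) z.1 + av Y q z.2)) ?_ ?_ ?_ q
  · intro a z
    rw [av_C, av_C, av_C, derivative_C, map_zero]
    refine Prod.ext rfl ?_
    change a • z.2 = 0 + a • z.2
    rw [zero_add]
  · intro q r hq hr z
    rw [av_addp, hq, hr, derivative_add, av_addp, av_addp, av_addp]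
    refine Prod.ext rfl ?_
    change (av Y (derivative q) z.1 + av Y q z.2) + (av Y (derivative r) z.1 + av Y r z.2) =
      (av Y (derivative q) z.1 + av Y (derivative r) z.1) + (av Y q z.2 + av Y r z.2)
    abel
  · intro q hq z
    rw [av_mulX, hq, derivative_mul, derivative_X, mul_one, av_addp, av_mulX, av_mulX, av_mulX]
    refine Prod.ext rfl ?_
    change av Y (derivative q) (Y z.1) + av Y q (z.1 + Y z.2) =
      (av Y (derivative q) (Y z.1) + av Y q z.1) + av Y q (Y z.2)
    rw [map_add]
    abel

/-- the operator of a matrix of polynomials -/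
noncomputable def og : Matrix (Fin n) (Fin n) K[X] →ₗ[K] (Fin n → E) →ₗ[K] (Fin n → E) where
  toFun g := LinearMap.pi fun i => ∑ j, (av Y (g i j)) ∘ₗ LinearMap.proj j
  map_add' g h := by
    refine LinearMap.ext fun v => ?_
    ext i
    simp only [LinearMap.pi_apply, LinearMap.sum_apply, LinearMap.comp_apply, LinearMap.proj_apply,
      LinearMap.add_apply, Pi.add_apply, Matrix.add_apply, map_add, Finset.sum_add_distrib]
  map_smul' c g := by
    refine LinearMap.ext fun v => ?_
    ext i
    simp only [LinearMap.pi_apply, LinearMap.sum_apply, LinearMap.comp_apply, LinearMap.proj_apply,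
      LinearMap.smul_apply, Pi.smul_apply, Matrix.smul_apply, map_smul, Finset.smul_sum,
      RingHom.id_apply]

theorem og_apply (g : Matrix (Fin n) (Fin n) K[X]) (v : Fin n → E) (i : Fin n) :
    og Y g v i = ∑ j, av Y (g i j) (v j) := by
  change (LinearMap.pi fun i => ∑ j, (av Y (g i j)) ∘ₗ LinearMap.proj (φ := fun _ => E) j :
    (Fin n → E) →ₗ[K] (Fin n → E)) v i = _
  simp only [LinearMap.pi_apply, LinearMap.sum_apply, LinearMap.comp_apply, LinearMap.proj_apply]

/-- a linear map in every component -/
def cl {E' : Type*} [AddCommGroup E'] [Module K E'] (n : ℕ) (i : E' →ₗ[K] E) :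
    (Fin n → E') →ₗ[K] (Fin n → E) where
  toFun v t := i (v t)
  map_add' v w := by
    ext t
    exact map_add i _ _
  map_smul' c v := by
    ext t
    exact map_smul i _ _

theorem og_int {E' : Type*} [AddCommGroup E'] [Module K E'] (Y' : E' →ₗ[K] E')
    (i : E' →ₗ[K] E) (h : ∀ v, Y (i v) = i (Y' v)) (g : Matrix (Fin n) (Fin n) K[X])
    (v : Fin n → E') : og Y g (cl n i v) = cl n i (og Y' g v) := by
  ext t
  rw [og_apply]
  change ∑ j, av Y (g t j) (i (v j)) = i (og Y' g v t)
  rw [og_apply, map_sum]
  exact Finset.sum_congr rfl fun j _ => av_int Y Y' i h _ _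

theorem rk_og_dbl [FiniteDimensional K E] (g : Matrix (Fin n) (Fin n) K[X]) :
    rk (og (dbl Y LinearMap.id) g) ≤ rk (dbl (og Y g) (og Y (g.map derivative))) := by
  let σ : (Fin n → E × E) →ₗ[K] (Fin n → E) × (Fin n → E) :=
    (cl n (LinearMap.fst K E E)).prod (cl n (LinearMap.snd K E E))
  let τ : (Fin n → E) × (Fin n → E) →ₗ[K] (Fin n → E × E) :=
    { toFun := fun z t => (z.1 t, z.2 t)
      map_add' := fun _ _ => rfl
      map_smul' := fun _ _ => rfl }
  have h1 : og (dbl Y LinearMap.id) g = τ ∘ₗ dbl (og Y g) (og Y (g.map derivative)) ∘ₗ σ := by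
    refine LinearMap.ext fun v => ?_
    ext t : 1
    rw [og_apply]
    change _ = (og Y g (fun j => (v j).1) t, (og Y (g.map derivative) (fun j => (v j).1) +
      og Y g (fun j => (v j).2)) t)
    rw [Pi.add_apply, og_apply, og_apply, og_apply]
    refine Prod.ext ?_ ?_
    · rw [Prod.fst_sum]
      exact Finset.sum_congr rfl fun j _ => by rw [av_dbl]
    · rw [Prod.snd_sum]
      change _ = (∑ j, av Y ((g.map derivative) t j) (v j).1) + ∑ j, av Y (g t j) (v j).2
      rw [← Finset.sum_add_distrib]
      exact Finset.sum_congr rfl fun j _ => by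
        rw [av_dbl]
        rfl
  rw [h1]
  exact (rk_comp_le_left _ _).trans (rk_comp_le_right _ _)

end

/-- rank of the `q`-fold doubling -/
noncomputable def pso (g : Matrix (Fin n) (Fin n) K[X]) : ℕ → ∀ (E : Type v) [AddCommGroup E]
    [Module K E], (E →ₗ[K] E) → ℕ
  | 0, _, _, _, Y => rk (og Y g)
  | q + 1, E, _, _, Y => pso g q (E × E) (dbl Y LinearMap.id)

theorem pso_zero (g : Matrix (Fin n) (Fin n) K[X]) (E : Type v) [AddCommGroup E] [Module K E]
    (Y : E →ₗ[K] E) : pso g 0 E Y = rk (og Y g) := rfl

theorem pso_succ (g : Matrix (Fin n) (Fin n) K[X]) (q : ℕ) (E : Type v) [AddCommGroup E]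
    [Module K E] (Y : E →ₗ[K] E) : pso g (q + 1) E Y = pso g q (E × E) (dbl Y LinearMap.id) := rfl

theorem pso_sub_quot (g : Matrix (Fin n) (Fin n) K[X]) (q : ℕ) : ∀ (E E' E'' : Type v)
    [AddCommGroup E] [Module K E] [FiniteDimensional K E] [AddCommGroup E'] [Module K E']
    [AddCommGroup E''] [Module K E''] (Y : E →ₗ[K] E) (Y' : E' →ₗ[K] E') (Y'' : E'' →ₗ[K] E'')
    (i : E' →ₗ[K] E) (p : E →ₗ[K] E''), Function.Injective i → Function.Surjective p →
    (∀ v, p (i v) = 0) → (∀ v, Y (i v) = i (Y' v)) → (∀ v, p (Y v) = Y'' (p v)) →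
    pso g q E' Y' + pso g q E'' Y'' ≤ pso g q E Y := by
  induction q with
  | zero =>
    intro E E' E'' _ _ _ _ _ _ _ Y Y' Y'' i p hi hp hpi h1 h2
    rw [pso_zero, pso_zero, pso_zero]
    refine rk_sub_quot (og Y' g) (og Y g) (og Y'' g) (cl n i) (cl n p) ?_ ?_ ?_ ?_ ?_
    · intro v w hvw
      ext t
      exact hi (congrFun hvw t)
    · intro w
      choose f hf using hp
      refine ⟨fun t => f (w t), ?_⟩
      ext t
      exact hf (w t)
    · intro v
      ext t
      exact hpi (v t)
    · intro v
      exact og_int Y Y' i h1 g v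
    · intro v
      exact (og_int Y'' Y p (fun v => (h2 v).symm) g v).symm
  | succ q ih =>
    intro E E' E'' _ _ _ _ _ _ _ Y Y' Y'' i p hi hp hpi h1 h2
    rw [pso_succ, pso_succ, pso_succ]
    refine ih (E × E) (E' × E') (E'' × E'') _ _ _ (i.prodMap i) (p.prodMap p) ?_ ?_ ?_ ?_ ?_
    · exact Function.Injective.prodMap hi hi
    · exact Function.Surjective.prodMap hp hp
    · rintro ⟨v, w⟩
      exact Prod.ext (hpi v) (hpi w)
    · rintro ⟨v, w⟩
      refine Prod.ext (h1 v) ?_
      change i v + Y (i w) = i (v + Y' w)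
      rw [h1, map_add]
    · rintro ⟨v, w⟩
      refine Prod.ext (h2 v) ?_
      change p (v + Y w) = p v + Y'' (p w)
      rw [map_add, h2]

/-- the shift of sequences of scalars -/
noncomputable def sk (K : Type u) [Field K] (L : ℕ) : (Fin L → K) →ₗ[K] (Fin L → K) := sh L

theorem T_zero_id (L : ℕ) : T L (0 : K →ₗ[K] K) LinearMap.id = sk K L := by
  refine LinearMap.ext fun v => ?_
  ext t
  rw [T_apply]
  change (0 : K →ₗ[K] K) (v t) + pv (ex v) t = pv (ex v) t
  rw [LinearMap.zero_apply, zero_add]

theorem cw_id (L : ℕ) : cw L (LinearMap.id : K →ₗ[K] K) = LinearMap.id := rfl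

/-- lower bound, from the case `q = 0` -/
theorem pso_low [CharZero K] (g : Matrix (Fin n) (Fin n) K[X]) (d R : ℕ)
    (h0 : ∀ L : ℕ, L * R ≤ rk (og (sk K L) g) + d * R) (q : ℕ) : ∀ L : ℕ, L * 2 ^ q * R ≤
      pso g q (Fin L → K) (sk K L) + d * wlk q L * R := by
  induction q with
  | zero =>
    intro L
    rw [pso_zero, pow_zero, mul_one]
    rcases L with _ | L
    · simp
    · change (L + 1) * R ≤ _ + d * 1 * R
      rw [mul_one]
      exact h0 (L + 1)
  | succ q ih =>
    intro L
    rcases L with _ | L
    · simp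
    · obtain ⟨i, p, hi, hp, hpi, h1, h2, -, -⟩ := cg L (0 : K →ₗ[K] K) LinearMap.id
      rw [T_zero_id, T_zero_id, cw_id] at h1
      rw [T_zero_id, T_zero_id, cw_id] at h2
      have h5 := pso_sub_quot g q _ _ _ _ _ _ i p hi hp hpi h1 h2
      have h6 := ih L
      have h7 := ih (L + 2)
      rw [pso_succ]
      change _ ≤ _ + d * (wlk q L + wlk q (L + 2)) * R
      have e1 : (L + 1) * 2 ^ (q + 1) * R = L * 2 ^ q * R + (L + 2) * 2 ^ q * R := by
        ring
      have e2 : d * (wlk q L + wlk q (L + 2)) * R = d * wlk q L * R + d * wlk q (L + 2) * R := by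
        ring
      rw [e1, e2]
      omega

/-- the first `L` coefficients -/
def cf (L : ℕ) : K[X] →ₗ[K] (Fin L → K) where
  toFun q t := q.coeff t
  map_add' q r := by
    ext t
    exact coeff_add q r t
  map_smul' c q := by
    ext t
    exact coeff_smul c q t

theorem av_cf (L : ℕ) (q : K[X]) : ∀ r : K[X], av (sk K L) q (cf L r) = cf L (q * r) := by
  refine pol_ind (P := fun q => ∀ r : K[X], av (sk K L) q (cf L r) = cf L (q * r)) ?_ ?_ ?_ q
  · intro a r
    rw [av_C, ← smul_eq_C_mul, map_smul]
  · intro q q' h h' r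
    rw [av_addp, h, h', add_mul, map_add]
  · intro q h r
    rw [av_mulX]
    have h1 : sk K L (cf L r) = cf L (X * r) := by
      ext t
      change pv (ex (cf L r)) t = (X * r).coeff t
      obtain ⟨t, ht⟩ := t
      change pv (ex (cf L r)) t = (X * r).coeff t
      rcases t with _ | t
      · rw [mul_coeff_zero, coeff_X_zero, zero_mul]
        rfl
      · rw [coeff_X_mul]
        change ex (cf L r) t = _
        rw [ex_lt _ (show t < L by omega)]
        rfl
    rw [h1, h, mul_assoc]

/-- lower bound on `K[t] / t^L` -/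
theorem low_base [Infinite K] (g : Matrix (Fin n) (Fin n) K[X]) (d R : ℕ)
    (hd : ∀ i j, (g i j).natDegree ≤ d) (t0 : K) (hR : R ≤ (g.map (eval t0)).rank) (L : ℕ) :
    L * R ≤ rk (og (sk K L) g) + d * R := by
  classical
  by_cases hL : L ≤ d
  · exact (Nat.mul_le_mul_right R hL).trans (Nat.le_add_left _ _)
  obtain ⟨e, rfl⟩ : ∃ e, L = e + d := ⟨L - d, by omega⟩
  have key : e * R ≤ rk (og (sk K (e + d)) g) := by
    -- points of large rank
    have hinf : {t : K | R ≤ (g.map (eval t)).rank}.Infinite := by
      have hfin : {t : K | (g.map (eval t)).rank < R}.Finite := by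
        by_contra hcon
        obtain ⟨S, hS, hcard⟩ := Set.Infinite.exists_subset_card_eq hcon (n * d + 1)
        obtain ⟨s, hs, h1⟩ := Pool.Agent.BNR.grid g d hd S
          (by rw [Fintype.card_fin, hcard]; exact Nat.lt_succ_self _) t0
        have h2 : (g.map (eval s)).rank < R := hS hs
        omega
      refine hfin.infinite_compl.mono fun t ht => ?_
      change R ≤ (g.map (eval t)).rank
      by_contra h
      exact ht (not_le.1 h)
    obtain ⟨S, hS, hcard⟩ := hinf.exists_subset_card_eq e
    -- polynomials of degree less than `e`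
    let Φ : (Fin n → degreeLT K e) →ₗ[K] (Fin n → K[X]) := cl n (degreeLT K e).subtype
    let Ψ : (Fin n → degreeLT K e) →ₗ[K] (Fin n → Fin (e + d) → K) :=
      og (sk K (e + d)) g ∘ₗ cl n (cf (e + d)) ∘ₗ Φ
    have hmul : ∀ (v : Fin n → degreeLT K e) (i : Fin n),
        Ψ v i = cf (e + d) (∑ j, g i j * (v j : K[X])) := by
      intro v i
      change og (sk K (e + d)) g (cl n (cf (e + d)) (Φ v)) i = _
      rw [og_apply, map_sum]
      exact Finset.sum_congr rfl fun j _ => av_cf _ _ _
    have hdeg : ∀ (v : Fin n → degreeLT K e) (i : Fin n), e ≠ 0 →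
        (∑ j, g i j * (v j : K[X])).natDegree < e + d := by
      intro v i he
      refine lt_of_le_of_lt (natDegree_sum_le_of_forall_le (n := (e - 1) + d) _ _ fun j _ => ?_)
        (by omega)
      refine natDegree_mul_le.trans ?_
      have h1 : (v j : K[X]).natDegree ≤ e - 1 := by
        have h2 := mem_degreeLT.1 (v j).2
        have h3 : (v j : K[X]).natDegree < e := by
          by_cases h0 : (v j : K[X]) = 0
          · rw [h0, natDegree_zero]
            omega
          · exact (natDegree_lt_iff_degree_lt h0).2 h2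
        omega
      have h4 := hd i j
      omega
    have hker : ∀ v ∈ LinearMap.ker Ψ, ∀ i, ∑ j, g i j * (v j : K[X]) = 0 := by
      intro v hv i
      have he : e ≠ 0 := by omega
      ext t
      rw [coeff_zero]
      by_cases ht : t < e + d
      · have h1 := congrFun (congrFun (LinearMap.mem_ker.1 hv) i) ⟨t, ht⟩
        rw [hmul] at h1
        exact h1
      · exact coeff_eq_zero_of_natDegree_lt (lt_of_lt_of_le (hdeg v i he) (not_lt.1 ht))
    -- evaluation of the kernel
    let ev : LinearMap.ker Ψ →ₗ[K] ((c : S) → LinearMap.ker (g.map (eval (c : K))).mulVecLin) :=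
      { toFun := fun v c => ⟨fun j => eval (c : K) (v.1 j : K[X]), by
          rw [LinearMap.mem_ker, Matrix.mulVecLin_apply]
          ext i
          change ∑ j, (g.map (eval (c : K))) i j * eval (c : K) (v.1 j : K[X]) = 0
          have h1 := congrArg (eval (c : K)) (hker v.1 v.2 i)
          rw [eval_finsetSum, eval_zero] at h1
          rw [← h1]
          exact Finset.sum_congr rfl fun j _ => by
            rw [eval_mul]
            rfl⟩
        map_add' := fun v w => by
          funext c
          refine Subtype.ext ?_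
          funext j
          exact eval_add
        map_smul' := fun a v => by
          funext c
          refine Subtype.ext ?_
          funext j
          exact eval_smul a (v.1 j : K[X]) (c : K) }
    have hev : Function.Injective ev := by
      intro v w hvw
      refine Subtype.ext ?_
      funext j
      refine Subtype.ext ?_
      have h1 : ((v.1 j : K[X]) - (w.1 j : K[X])) = 0 := by
        refine eq_zero_of_degree_lt_of_eval_finset_eq_zero S ?_ ?_
        · rw [hcard]
          exact mem_degreeLT.1 ((degreeLT K e).sub_mem (v.1 j).2 (w.1 j).2)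
        · intro c hc
          have h2 := congrFun hvw ⟨c, hc⟩
          have h3 := congrFun (congrArg Subtype.val h2) j
          change eval c (v.1 j : K[X]) = eval c (w.1 j : K[X]) at h3
          rw [eval_sub, h3, sub_self]
      exact sub_eq_zero.1 h1
    have h1 := LinearMap.finrank_le_finrank_of_injective hev
    rw [finrank_pi_fintype] at h1
    have h2 : ∀ c : S, finrank K (LinearMap.ker (g.map (eval (c : K))).mulVecLin) ≤ n - R := by
      intro c
      have h3 := LinearMap.finrank_range_add_finrank_ker (g.map (eval (c : K))).mulVecLin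
      rw [finrank_fin_fun] at h3
      have h4 : R ≤ finrank K (LinearMap.range (g.map (eval (c : K))).mulVecLin) := hS c.2
      omega
    have h3 : finrank K (LinearMap.ker Ψ) ≤ e * (n - R) := by
      refine h1.trans ((Finset.sum_le_card_nsmul _ _ (n - R) fun c _ => h2 c).trans ?_)
      rw [Finset.card_univ, Fintype.card_coe, hcard, smul_eq_mul]
    have h4 := LinearMap.finrank_range_add_finrank_ker Ψ
    have h5 : finrank K (Fin n → degreeLT K e) = n * e := by
      rw [finrank_pi_fintype]
      rw [LinearEquiv.finrank_eq (degreeLTEquiv K e), finrank_fin_fun]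
      simp
    have h6 : finrank K (LinearMap.range Ψ) ≤ rk (og (sk K (e + d)) g) :=
      rk_comp_le_right _ _
    have hRn : R ≤ n := by
      have h7 := Matrix.rank_le_width (g.map (eval t0))
      omega
    have h8 : n * e = e * R + e * (n - R) := by
      rw [← Nat.mul_add, Nat.add_sub_cancel' hRn, mul_comm]
    omega
  rw [Nat.add_mul]
  exact Nat.add_le_add_right key _

end Pool.Agent.CRP
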