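import Mathlib
import Pool.Agent.CRP.Lin

/-!
CRP-Semi: semicontinuity of the rank for polynomial families of linear maps.
-/

set_option autoImplicit false

namespace Pool.Agent.CRP

open Module

variable {K : Type*} [Field K]
variable {V W : Type*} [AddCommGroup V] [Module K V] [AddCommGroup W] [Module K W]

/-- a polynomial family of endomorphisms which starts with the identity is invertible for almost all `s` -/
private theorem semi_end {R : Type*} [AddCommGroup R] [Module K R] [FiniteDimensional K R]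
    (φ : ℕ → R →ₗ[K] R) (h0 : φ 0 = LinearMap.id) (D : ℕ) :
    {s : K | rk (∑ k ∈ Finset.range (D + 1), s ^ k • φ k) < finrank K R}.Finite := by
  classical
  let b := Module.finBasis K R
  let P : Matrix (Fin (finrank K R)) (Fin (finrank K R)) (Polynomial K) :=
    Matrix.of fun i j => ∑ k ∈ Finset.range (D + 1),
      Polynomial.C (LinearMap.toMatrix b b (φ k) i j) * Polynomial.X ^ k
  have hP : ∀ s : K, (Polynomial.evalRingHom s).mapMatrix P =
      LinearMap.toMatrix b b (∑ k ∈ Finset.range (D + 1), s ^ k • φ k) := by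
    intro s
    ext i j
    rw [map_sum, Matrix.sum_apply]
    change Polynomial.eval s (∑ k ∈ Finset.range (D + 1),
      Polynomial.C (LinearMap.toMatrix b b (φ k) i j) * Polynomial.X ^ k) = _
    rw [Polynomial.eval_finsetSum]
    refine Finset.sum_congr rfl fun k _ => ?_
    rw [Polynomial.eval_mul, Polynomial.eval_C, Polynomial.eval_pow, Polynomial.eval_X, map_smul,
      Matrix.smul_apply, smul_eq_mul, mul_comm]
  have hd : ∀ s : K, Polynomial.eval s P.det =
      LinearMap.det (∑ k ∈ Finset.range (D + 1), s ^ k • φ k) := by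
    intro s
    have h1 := RingHom.map_det (Polynomial.evalRingHom s) P
    rw [Polynomial.coe_evalRingHom] at h1
    rw [h1, hP, LinearMap.det_toMatrix]
  have hne : P.det ≠ 0 := by
    intro h
    have h1 := hd 0
    rw [h, Polynomial.eval_zero, Finset.sum_range_succ'] at h1
    have h2 : ∑ k ∈ Finset.range D, (0 : K) ^ (k + 1) • φ (k + 1) = 0 :=
      Finset.sum_eq_zero fun k _ => by rw [zero_pow (Nat.succ_ne_zero k), zero_smul]
    rw [h2, zero_add, pow_zero, one_smul, h0, LinearMap.det_id] at h1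
    exact zero_ne_one h1
  refine (P.det.roots.toFinset.finite_toSet).subset fun s hs => ?_
  rw [Finset.mem_coe, Multiset.mem_toFinset, Polynomial.mem_roots hne, Polynomial.IsRoot.def, hd]
  by_contra hdet
  have h1 : LinearMap.ker (∑ k ∈ Finset.range (D + 1), s ^ k • φ k) = ⊥ := by
    by_contra hk
    exact hdet (LinearMap.det_eq_zero_iff_ker_ne_bot.mpr hk)
  have h2 : rk (∑ k ∈ Finset.range (D + 1), s ^ k • φ k) = finrank K R :=
    LinearMap.finrank_range_of_inj (LinearMap.ker_eq_bot.mp h1)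
  have h3 : rk (∑ k ∈ Finset.range (D + 1), s ^ k • φ k) < finrank K R := hs
  omega

theorem scp_finite [FiniteDimensional K V] (N : ℕ → V →ₗ[K] W) (D : ℕ) :
    {s : K | rk (∑ k ∈ Finset.range (D + 1), s ^ k • N k) < rk (N 0)}.Finite := by
  obtain ⟨G, hG⟩ := exists_ginv (N 0)
  let φ : ℕ → LinearMap.range (N 0) →ₗ[K] LinearMap.range (N 0) := fun k =>
    (N 0).rangeRestrict ∘ₗ (G ∘ₗ N k) ∘ₗ (G ∘ₗ (LinearMap.range (N 0)).subtype)
  have h0 : φ 0 = LinearMap.id := by
    refine LinearMap.ext fun w => Subtype.ext ?_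
    obtain ⟨v, hv⟩ := w.2
    change N 0 (G (N 0 (G (w : W)))) = (w : W)
    rw [hG, ← hv, hG]
  refine (semi_end φ h0 D).subset fun s hs => ?_
  have hs' : rk (∑ k ∈ Finset.range (D + 1), s ^ k • N k) < rk (N 0) := hs
  change rk (∑ k ∈ Finset.range (D + 1), s ^ k • φ k) < finrank K (LinearMap.range (N 0))
  have e : ∑ k ∈ Finset.range (D + 1), s ^ k • φ k =
      (N 0).rangeRestrict ∘ₗ (G ∘ₗ (∑ k ∈ Finset.range (D + 1), s ^ k • N k)) ∘ₗ
        (G ∘ₗ (LinearMap.range (N 0)).subtype) := by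
    refine LinearMap.ext fun w => Subtype.ext ?_
    rw [LinearMap.sum_apply, AddSubmonoidClass.coe_finsetSum]
    change ∑ k ∈ Finset.range (D + 1), s ^ k • N 0 (G (N k (G (w : W)))) =
      N 0 (G ((∑ k ∈ Finset.range (D + 1), s ^ k • N k) (G (w : W))))
    rw [LinearMap.sum_apply, map_sum, map_sum]
    refine Finset.sum_congr rfl fun k _ => ?_
    rw [LinearMap.smul_apply, map_smul, map_smul]
  rw [e]
  have e1 : rk ((N 0).rangeRestrict ∘ₗ (G ∘ₗ (∑ k ∈ Finset.range (D + 1), s ^ k • N k)) ∘ₗ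
      (G ∘ₗ (LinearMap.range (N 0)).subtype)) ≤
      rk ((G ∘ₗ (∑ k ∈ Finset.range (D + 1), s ^ k • N k)) ∘ₗ
        (G ∘ₗ (LinearMap.range (N 0)).subtype)) := rk_comp_le_left _ _
  have e2 : rk ((G ∘ₗ (∑ k ∈ Finset.range (D + 1), s ^ k • N k)) ∘ₗ
      (G ∘ₗ (LinearMap.range (N 0)).subtype)) ≤
      rk (G ∘ₗ (∑ k ∈ Finset.range (D + 1), s ^ k • N k)) := rk_comp_le_right _ _
  have e3 : rk (G ∘ₗ (∑ k ∈ Finset.range (D + 1), s ^ k • N k)) ≤
      rk (∑ k ∈ Finset.range (D + 1), s ^ k • N k) := rk_comp_le_left _ _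
  unfold rk at *
  omega

/-- `X + (1 - X G) C` has at least the rank of `X` plus the rank of the visible part of `C` -/
private theorem semi_f [FiniteDimensional K V] [FiniteDimensional K W] (X : V →ₗ[K] W) (G : W →ₗ[K] V)
    (hG : ∀ v, X (G (X v)) = X v) (C : V →ₗ[K] W) :
    rk X + rk (vis X G C) ≤ rk (X + (LinearMap.id - X ∘ₗ G) ∘ₗ C) := by
  set f : V →ₗ[K] W := X + (LinearMap.id - X ∘ₗ G) ∘ₗ C with hf
  let g : LinearMap.range f →ₗ[K] W := (X ∘ₗ G) ∘ₗ (LinearMap.range f).subtype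
  have h2 := LinearMap.finrank_range_add_finrank_ker g
  have h3 : finrank K (LinearMap.range X) ≤ finrank K (LinearMap.range g) := by
    refine Submodule.finrank_mono ?_
    rintro _ ⟨v, rfl⟩
    refine ⟨⟨f v, v, rfl⟩, ?_⟩
    change X (G (X v + (C v - X (G (C v))))) = X v
    simp only [map_add, map_sub, hG, sub_self, add_zero]
  have h4 : finrank K (LinearMap.range (vis X G C)) ≤ finrank K (LinearMap.ker g) := by
    let e : LinearMap.range (vis X G C) →ₗ[K] LinearMap.ker g :=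
      { toFun := fun y => ⟨⟨y.1, by
          obtain ⟨v, hv⟩ := y.2
          refine ⟨v - G (X v), ?_⟩
          rw [← hv]
          change X (v - G (X v)) + (C (v - G (X v)) - X (G (C (v - G (X v))))) = _
          rw [vis_apply, map_sub X, hG, sub_self, zero_add]⟩, by
          obtain ⟨v, hv⟩ := y.2
          rw [LinearMap.mem_ker]
          change X (G y.1) = 0
          rw [← hv, vis_apply]
          simp only [map_sub, hG, sub_self]⟩
        map_add' := fun _ _ => rfl
        map_smul' := fun _ _ => rfl }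
    refine LinearMap.finrank_le_finrank_of_injective (f := e) fun a b hab => ?_
    have h5 := congrArg (fun z : LinearMap.ker g => ((z : LinearMap.range f) : W)) hab
    exact Subtype.ext h5
  unfold rk
  omega

theorem vis_poly [FiniteDimensional K V] [FiniteDimensional K W] (N : ℕ → V →ₗ[K] W) (D : ℕ)
    (G : W →ₗ[K] V) (hG : ∀ v, N 0 (G (N 0 v)) = N 0 v) :
    {s : K | rk (∑ k ∈ Finset.range (D + 2), s ^ k • N k) < rk (N 0) + rk (vis (N 0) G (N 1))}.Finite := by
  let Q : ℕ → V →ₗ[K] W := fun k => if k ≤ D then N (k + 1) else 0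
  let F : ℕ → V →ₗ[K] W := fun k => (N 0 ∘ₗ G) ∘ₗ N k + (LinearMap.id - N 0 ∘ₗ G) ∘ₗ Q k
  have hF0 : F 0 = N 0 + (LinearMap.id - N 0 ∘ₗ G) ∘ₗ N 1 := by
    refine LinearMap.ext fun v => ?_
    change N 0 (G (N 0 v)) + (N 1 v - N 0 (G (N 1 v))) = N 0 v + (N 1 v - N 0 (G (N 1 v)))
    rw [hG]
  have h1 : rk (N 0) + rk (vis (N 0) G (N 1)) ≤ rk (F 0) := by
    rw [hF0]
    exact semi_f (N 0) G hG (N 1)
  refine Set.Finite.subset ((scp_finite F (D + 1)).union (Set.finite_singleton (0 : K))) ?_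
  intro s hs
  by_cases hs0 : s = 0
  · exact Or.inr hs0
  refine Or.inl ?_
  change rk (∑ k ∈ Finset.range (D + 2), s ^ k • F k) < rk (F 0)
  have h2 : s • ∑ k ∈ Finset.range (D + 2), s ^ k • Q k =
      (∑ k ∈ Finset.range (D + 2), s ^ k • N k) - N 0 := by
    rw [Finset.sum_range_succ (fun k => s ^ k • Q k), Finset.sum_range_succ' (fun k => s ^ k • N k)]
    have e1 : Q (D + 1) = 0 := if_neg (by omega)
    rw [e1, smul_zero, add_zero, pow_zero, one_smul, add_sub_cancel_right, Finset.smul_sum]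
    refine Finset.sum_congr rfl fun k hk => ?_
    have e2 : Q k = N (k + 1) := if_pos (Nat.lt_succ_iff.mp (Finset.mem_range.mp hk))
    rw [e2, smul_smul, pow_succ']
  have h3 : ∑ k ∈ Finset.range (D + 2), s ^ k • F k =
      (N 0 ∘ₗ G) ∘ₗ (∑ k ∈ Finset.range (D + 2), s ^ k • N k) +
        (LinearMap.id - N 0 ∘ₗ G) ∘ₗ (∑ k ∈ Finset.range (D + 2), s ^ k • Q k) := by
    refine LinearMap.ext fun v => ?_
    change (∑ k ∈ Finset.range (D + 2), s ^ k • F k) v =
      N 0 (G ((∑ k ∈ Finset.range (D + 2), s ^ k • N k) v)) +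
        ((∑ k ∈ Finset.range (D + 2), s ^ k • Q k) v -
          N 0 (G ((∑ k ∈ Finset.range (D + 2), s ^ k • Q k) v)))
    rw [LinearMap.sum_apply, LinearMap.sum_apply, LinearMap.sum_apply, map_sum, map_sum, map_sum,
      map_sum, ← Finset.sum_sub_distrib, ← Finset.sum_add_distrib]
    refine Finset.sum_congr rfl fun k _ => ?_
    rw [LinearMap.smul_apply, LinearMap.smul_apply, LinearMap.smul_apply, map_smul, map_smul,
      map_smul, map_smul, ← smul_sub, ← smul_add]
    rfl
  have h4 : ∑ k ∈ Finset.range (D + 2), s ^ k • Q k =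
      s⁻¹ • ((∑ k ∈ Finset.range (D + 2), s ^ k • N k) - N 0) := by
    rw [← h2, smul_smul, inv_mul_cancel₀ hs0, one_smul]
  have h5 : ∑ k ∈ Finset.range (D + 2), s ^ k • F k =
      ((N 0 ∘ₗ G) + s⁻¹ • (LinearMap.id - N 0 ∘ₗ G)) ∘ₗ (∑ k ∈ Finset.range (D + 2), s ^ k • N k) := by
    rw [h3, h4]
    refine LinearMap.ext fun v => ?_
    generalize (∑ k ∈ Finset.range (D + 2), s ^ k • N k) = S
    change N 0 (G (S v)) + (s⁻¹ • (S v - N 0 v) - N 0 (G (s⁻¹ • (S v - N 0 v)))) =
      N 0 (G (S v)) + s⁻¹ • (S v - N 0 (G (S v)))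
    rw [map_smul, map_smul, map_sub, map_sub, hG, ← smul_sub]
    congr 2
    abel
  have h6 : rk (∑ k ∈ Finset.range (D + 2), s ^ k • F k) ≤
      rk (∑ k ∈ Finset.range (D + 2), s ^ k • N k) := by
    rw [h5]
    exact rk_comp_le_left _ _
  have h7 : rk (∑ k ∈ Finset.range (D + 2), s ^ k • N k) < rk (N 0) + rk (vis (N 0) G (N 1)) := hs
  omega

end Pool.Agent.CRP
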