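import Mathlib
import Pool.Agent.CRP.Pol
import Pool.Agent.CRP.Semi
import Pool.Agent.CRP.Main

/-!
CRP: matrices of polynomials in several variables, restricted to lines; the step from one doubling to the next point.
-/

set_option autoImplicit false

namespace Pool.Agent.CRP

open Module Polynomial

universe u v

variable {K : Type u} [Field K] {m n : ℕ}

/-- restriction to the line `z + t x` -/
noncomputable def ft (z x : Fin m → K) : MvPolynomial (Fin m) K →ₐ[K] K[X] :=
  MvPolynomial.aeval fun e => C (z e) + C (x e) * X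

/-- derivative in the direction `x` -/
noncomputable def dd (x : Fin m → K) (f : MvPolynomial (Fin m) K) : MvPolynomial (Fin m) K :=
  ∑ e, x e • MvPolynomial.pderiv e f

/-- restriction to the plane `z + t x + s p` -/
noncomputable def fs (z x p : Fin m → K) : MvPolynomial (Fin m) K →ₐ[K] K[X][X] :=
  MvPolynomial.aeval fun e => C (C (z e) + C (x e) * X) + C (C (p e)) * X

theorem ft_X (z x : Fin m → K) (e : Fin m) : ft z x (MvPolynomial.X e) = C (z e) + C (x e) * X := by
  unfold ft
  rw [MvPolynomial.aeval_X]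

theorem ft_C (z x : Fin m → K) (a : K) : ft z x (MvPolynomial.C a) = C a := by
  unfold ft
  rw [MvPolynomial.aeval_C]
  rfl

theorem fs_X (z x p : Fin m → K) (e : Fin m) : fs z x p (MvPolynomial.X e) =
    C (C (z e) + C (x e) * X) + C (C (p e)) * X := by
  unfold fs
  rw [MvPolynomial.aeval_X]

theorem fs_C (z x p : Fin m → K) (a : K) : fs z x p (MvPolynomial.C a) = C (C a) := by
  unfold fs
  rw [MvPolynomial.aeval_C]
  rfl

theorem dd_C (x : Fin m → K) (a : K) : dd x (MvPolynomial.C a) = 0 := by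
  unfold dd
  refine Finset.sum_eq_zero fun e _ => ?_
  rw [MvPolynomial.pderiv_C, smul_zero]

theorem dd_add (x : Fin m → K) (f g : MvPolynomial (Fin m) K) : dd x (f + g) = dd x f + dd x g := by
  unfold dd
  rw [← Finset.sum_add_distrib]
  exact Finset.sum_congr rfl fun e _ => by rw [map_add, smul_add]

theorem dd_mulX (x : Fin m → K) (f : MvPolynomial (Fin m) K) (e : Fin m) :
    dd x (f * MvPolynomial.X e) = dd x f * MvPolynomial.X e + x e • f := by
  unfold dd
  have h1 : ∀ e', x e' • MvPolynomial.pderiv e' (f * MvPolynomial.X e) =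
      (x e' • MvPolynomial.pderiv e' f) * MvPolynomial.X e + (if e' = e then x e' • f else 0) := by
    intro e'
    rw [MvPolynomial.pderiv_mul]
    by_cases h : e' = e
    · subst h
      rw [MvPolynomial.pderiv_X_self, if_pos rfl, mul_one, smul_add, smul_mul_assoc]
    · rw [MvPolynomial.pderiv_X_of_ne (Ne.symm h), if_neg h, mul_zero, add_zero, add_zero,
        smul_mul_assoc]
  rw [Finset.sum_congr rfl fun e' _ => h1 e', Finset.sum_add_distrib, ← Finset.sum_mul,
    Finset.sum_ite_eq' Finset.univ e]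
  simp

theorem ft_der (z x : Fin m → K) (f : MvPolynomial (Fin m) K) :
    derivative (ft z x f) = ft z x (dd x f) := by
  induction f using MvPolynomial.induction_on with
  | C a => rw [ft_C, dd_C, derivative_C, map_zero]
  | add f g hf hg => rw [map_add, derivative_add, dd_add, map_add, hf, hg]
  | mul_X f e hf =>
    rw [map_mul, derivative_mul, hf, dd_mulX, map_add, map_mul, map_smul, ft_X, derivative_add,
      derivative_C, derivative_C_mul, derivative_X, zero_add, mul_one, smul_eq_C_mul]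
    ring

theorem fs_coeff0 (z x p : Fin m → K) (f : MvPolynomial (Fin m) K) :
    (fs z x p f).coeff 0 = ft z x f := by
  induction f using MvPolynomial.induction_on with
  | C a => rw [fs_C, ft_C, coeff_C_zero]
  | add f g hf hg => rw [map_add, coeff_add, hf, hg, map_add]
  | mul_X f e hf =>
    rw [map_mul, mul_coeff_zero, hf, map_mul, fs_X, ft_X, coeff_add, coeff_C_zero, coeff_C_mul,
      coeff_X_zero, mul_zero, add_zero]

theorem fs_coeff1 (z x p : Fin m → K) (f : MvPolynomial (Fin m) K) :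
    (fs z x p f).coeff 1 = ft z x (dd p f) := by
  induction f using MvPolynomial.induction_on with
  | C a => rw [fs_C, dd_C, map_zero, coeff_C_ne_zero one_ne_zero]
  | add f g hf hg => rw [map_add, coeff_add, hf, hg, dd_add, map_add]
  | mul_X f e hf =>
    rw [map_mul, fs_X, mul_add, coeff_add, coeff_mul_C, hf, dd_mulX, map_add, map_mul, ft_X,
      map_smul, ← mul_assoc, coeff_mul_X, coeff_mul_C, fs_coeff0, smul_eq_C_mul]
    ring

theorem fs_eval (z x p : Fin m → K) (s : K) (f : MvPolynomial (Fin m) K) :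
    (fs z x p f).eval (C s) = ft (z + s • p) x f := by
  induction f using MvPolynomial.induction_on with
  | C a => rw [fs_C, ft_C, eval_C]
  | add f g hf hg => rw [map_add, eval_add, hf, hg, map_add]
  | mul_X f e hf =>
    rw [map_mul, eval_mul, hf, map_mul, fs_X, ft_X, eval_add, eval_C, eval_mul, eval_C, eval_X,
      Pi.add_apply, Pi.smul_apply, smul_eq_mul, map_add, map_mul]
    ring

theorem ft_eval (z x : Fin m → K) (t : K) (f : MvPolynomial (Fin m) K) :
    (ft z x f).eval t = MvPolynomial.eval (z + t • x) f := by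
  induction f using MvPolynomial.induction_on with
  | C a => rw [ft_C, eval_C, MvPolynomial.eval_C]
  | add f g hf hg => rw [map_add, eval_add, hf, hg, map_add]
  | mul_X f e hf =>
    rw [map_mul, eval_mul, hf, map_mul, ft_X, MvPolynomial.eval_X, eval_add, eval_C, eval_mul,
      eval_C, eval_X, Pi.add_apply, Pi.smul_apply, smul_eq_mul, mul_comm t]

theorem ft_deg (z x : Fin m → K) (f : MvPolynomial (Fin m) K) :
    (ft z x f).natDegree ≤ f.totalDegree := by
  unfold ft
  have h1 := MvPolynomial.aeval_natDegree_le (m := f.totalDegree) (n := 1) f le_rfl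
    (fun e => C (z e) + C (x e) * X) (fun e => by
      refine (natDegree_add_le _ _).trans (max_le ?_ ?_)
      · rw [natDegree_C]
        exact Nat.zero_le 1
      · exact (natDegree_C_mul_le _ _).trans natDegree_X_le)
  rw [mul_one] at h1
  exact h1

theorem fs_deg (z x p : Fin m → K) (f : MvPolynomial (Fin m) K) :
    (fs z x p f).natDegree ≤ f.totalDegree := by
  have h0 : fs z x p f = MvPolynomial.aeval
      (fun e => (C (C (z e) + C (x e) * X) + C (C (p e)) * X : K[X][X]))
      (MvPolynomial.map (algebraMap K K[X]) f) := by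
    rw [MvPolynomial.aeval_map_algebraMap]
    rfl
  have hT : (MvPolynomial.map (algebraMap K K[X]) f).totalDegree ≤ f.totalDegree := by
    refine Finset.sup_mono ?_
    exact MvPolynomial.support_map_subset _ _
  rw [h0]
  have h1 := MvPolynomial.aeval_natDegree_le (m := f.totalDegree) (n := 1)
    (MvPolynomial.map (algebraMap K K[X]) f) hT
    (fun e => (C (C (z e) + C (x e) * X) + C (C (p e)) * X : K[X][X])) (fun e => by
      refine (natDegree_add_le _ _).trans (max_le ?_ ?_)
      · rw [natDegree_C]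
        exact Nat.zero_le 1
      · exact (natDegree_C_mul_le _ _).trans natDegree_X_le)
  rw [mul_one] at h1
  exact h1

/-- the matrix on a line -/
noncomputable def Mt (M : Matrix (Fin n) (Fin n) (MvPolynomial (Fin m) K)) (z x : Fin m → K) :
    Matrix (Fin n) (Fin n) K[X] := M.map (ft z x)

section

variable {E : Type v} [AddCommGroup E] [Module K E] (Y : E →ₗ[K] E)
  (M : Matrix (Fin n) (Fin n) (MvPolynomial (Fin m) K))

/-- coefficients of the Taylor expansion in the direction `p` -/
noncomputable def Nk (z x p : Fin m → K) (k : ℕ) : (Fin n → E) →ₗ[K] (Fin n → E) :=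
  og Y (Matrix.of fun i j => (fs z x p (M i j)).coeff k)

theorem Nk_zero (z x p : Fin m → K) : Nk Y M z x p 0 = og Y (Mt M z x) := by
  unfold Nk Mt
  congr 1
  refine Matrix.ext fun i j => ?_
  exact fs_coeff0 _ _ _ _

theorem Nk_one (z x p : Fin m → K) : Nk Y M z x p 1 = ∑ e, p e • og Y
    (Matrix.of fun i j => ft z x (MvPolynomial.pderiv e (M i j))) := by
  have h1 : ∀ e, p e • og Y (Matrix.of fun i j => ft z x (MvPolynomial.pderiv e (M i j))) =
      og Y (p e • (Matrix.of fun i j => ft z x (MvPolynomial.pderiv e (M i j)))) :=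
    fun e => (map_smul _ _ _).symm
  rw [Finset.sum_congr rfl fun e _ => h1 e, ← map_sum]
  unfold Nk
  congr 1
  refine Matrix.ext fun i j => ?_
  rw [Matrix.of_apply, fs_coeff1, Matrix.sum_apply]
  unfold dd
  rw [map_sum]
  refine Finset.sum_congr rfl fun e _ => ?_
  rw [map_smul]
  rfl

theorem Nk_self (z x : Fin m → K) : Nk Y M z x x 1 = og Y ((Mt M z x).map derivative) := by
  unfold Nk Mt
  congr 1
  refine Matrix.ext fun i j => ?_
  rw [Matrix.of_apply, fs_coeff1, ← ft_der]
  rfl

theorem Nk_sum (D : ℕ) (hD : ∀ i j, (M i j).totalDegree ≤ D) (z x p : Fin m → K) (s : K) :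
    og Y (Mt M (z + s • p) x) = ∑ k ∈ Finset.range (D + 2), s ^ k • Nk Y M z x p k := by
  have h1 : ∀ k, s ^ k • Nk Y M z x p k =
      og Y (s ^ k • (Matrix.of fun i j => (fs z x p (M i j)).coeff k)) :=
    fun k => (map_smul _ _ _).symm
  rw [Finset.sum_congr rfl fun k _ => h1 k, ← map_sum]
  congr 1
  refine Matrix.ext fun i j => ?_
  rw [Matrix.sum_apply]
  unfold Mt
  rw [Matrix.map_apply, ← fs_eval, eval_eq_sum_range' (n := D + 2)]
  · refine Finset.sum_congr rfl fun k _ => ?_
    rw [Matrix.smul_apply, Matrix.of_apply, smul_eq_C_mul, mul_comm, map_pow]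
  · have h2 := fs_deg z x p (M i j)
    have h3 := hD i j
    omega

/-- one step: some point of `P` -/
theorem stp [FiniteDimensional K E] {P : Set (Fin m → K)} (hP : Two P (Fin n → E)) (D : ℕ)
    (hD : ∀ i j, (M i j).totalDegree ≤ D) (z x : Fin m → K) :
    ∃ p ∈ P, {s : K | 2 * rk (og Y (Mt M (z + s • p) x)) <
      rk (og (dbl Y LinearMap.id) (Mt M z x))}.Finite := by
  obtain ⟨G, hG⟩ := exists_ginv (og Y (Mt M z x))
  have hv : ∀ y : Fin m → K, vis (og Y (Mt M z x)) G (Nk Y M z x y 1) =
      ∑ e, y e • vis (og Y (Mt M z x)) G (og Y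
        (Matrix.of fun i j => ft z x (MvPolynomial.pderiv e (M i j)))) := by
    intro y
    rw [Nk_one]
    refine LinearMap.ext fun v => ?_
    rw [vis_apply]
    simp only [LinearMap.sum_apply, LinearMap.smul_apply, vis_apply, map_sum, map_smul, smul_sub,
      Finset.sum_sub_distrib]
  obtain ⟨p, hp, h1⟩ := hP (fun e => vis (og Y (Mt M z x)) G (og Y
        (Matrix.of fun i j => ft z x (MvPolynomial.pderiv e (M i j))))) x
  rw [← hv, ← hv] at h1
  refine ⟨p, hp, ?_⟩
  have h2 := rk_dbl_le (og Y (Mt M z x)) G hG (Nk Y M z x x 1)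
  have h3 := rk_og_dbl Y (Mt M z x)
  rw [← Nk_self] at h3
  have h4 := vis_poly (Nk Y M z x p) D G (by rw [Nk_zero]; exact hG)
  refine h4.subset fun s hs => ?_
  have h5 : 2 * rk (og Y (Mt M (z + s • p) x)) < rk (og (dbl Y LinearMap.id) (Mt M z x)) := hs
  change rk (∑ k ∈ Finset.range (D + 2), s ^ k • Nk Y M z x p k) <
    rk (Nk Y M z x p 0) + rk (vis (Nk Y M z x p 0) G (Nk Y M z x p 1))
  rw [← Nk_sum Y M D hD, Nk_zero]
  omega

end

/-- upper bound for the rank of the iterated doubling -/
theorem pso_up {P : Set (Fin m → K)} [Infinite K] (C : ℕ)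
    (hP : ∀ (V : Type v) [AddCommGroup V] [Module K V] [FiniteDimensional K V],
      finrank K V ≤ C → Two P V) (M : Matrix (Fin n) (Fin n) (MvPolynomial (Fin m) K)) (D : ℕ)
    (hD : ∀ i j, (M i j).totalDegree ≤ D) (x : Fin m → K) (q : ℕ) :
    ∀ (E : Type v) [AddCommGroup E] [Module K E] [FiniteDimensional K E],
      2 ^ q * (n * finrank K E) ≤ C → ∀ (Y : E →ₗ[K] E) (z0 : Fin m → K),
        ∃ z ∈ cmb P q, pso (Mt M z0 x) q E Y ≤ 2 ^ q * rk (og Y (Mt M (z0 + z) x)) := by
  induction q with
  | zero =>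
    intro E _ _ _ _ Y z0
    refine ⟨0, rfl, ?_⟩
    rw [pso_zero, pow_zero, one_mul, add_zero]
  | succ q ih =>
    intro E _ _ _ hE Y z0
    have e0 : 2 ^ (q + 1) * (n * finrank K E) = 2 ^ q * (n * (2 * finrank K E)) := by ring
    obtain ⟨z, hz, h1⟩ := ih (E × E) (by
      rw [finrank_prod]
      have e1 : finrank K E + finrank K E = 2 * finrank K E := (two_mul _).symm
      rw [e1, ← e0]
      exact hE) (dbl Y LinearMap.id) z0
    have hVD : finrank K (Fin n → E) ≤ C := by
      rw [finrank_pi_fintype]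
      simp only [Finset.sum_const, Finset.card_univ, Fintype.card_fin, smul_eq_mul]
      have e1 : 1 * (n * finrank K E) ≤ 2 ^ (q + 1) * (n * finrank K E) :=
        Nat.mul_le_mul_right _ Nat.one_le_two_pow
      omega
    obtain ⟨p, hp, hfin⟩ := stp Y M (hP (Fin n → E) hVD) D hD (z0 + z) x
    obtain ⟨s, hs⟩ := hfin.infinite_compl.nonempty
    have h2 : rk (og (dbl Y LinearMap.id) (Mt M (z0 + z) x)) ≤
        2 * rk (og Y (Mt M (z0 + z + s • p) x)) := not_lt.1 hs
    refine ⟨z + s • p, ⟨z, hz, s, p, hp, rfl⟩, ?_⟩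
    rw [pso_succ, ← add_assoc]
    refine h1.trans ?_
    calc 2 ^ q * rk (og (dbl Y LinearMap.id) (Mt M (z0 + z) x)) ≤
          2 ^ q * (2 * rk (og Y (Mt M (z0 + z + s • p) x))) := Nat.mul_le_mul_left _ h2
      _ = 2 ^ (q + 1) * rk (og Y (Mt M (z0 + z + s • p) x)) := by ring

/-- the last step: the shift of length one is zero -/
theorem rk_sk_one (M : Matrix (Fin n) (Fin n) (MvPolynomial (Fin m) K)) (z x : Fin m → K) :
    rk (og (sk K 1) (Mt M z x)) ≤ (M.map (MvPolynomial.eval z)).rank := by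
  have h0 : sk K 1 = 0 := by
    refine LinearMap.ext fun v => ?_
    ext t
    change pv (ex v) t = 0
    have h2 : (t : ℕ) = 0 := by omega
    rw [h2]
    rfl
  have h1 : ∀ (q : K[X]) (v : Fin 1 → K), av (0 : (Fin 1 → K) →ₗ[K] (Fin 1 → K)) q v =
      q.eval 0 • v := by
    intro q
    refine pol_ind (P := fun q => ∀ v : Fin 1 → K, av (0 : (Fin 1 → K) →ₗ[K] (Fin 1 → K)) q v =
      q.eval 0 • v) ?_ ?_ ?_ q
    · intro a v
      rw [av_C, eval_C]
    · intro q r hq hr v
      rw [av_addp, hq, hr, eval_add, add_smul]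
    · intro q hq v
      rw [av_mulX, LinearMap.zero_apply, map_zero, eval_mul, eval_X, mul_zero, zero_smul]
  have h2 : og (sk K 1) (Mt M z x) = cl n (LinearMap.toSpanSingleton K (Fin 1 → K) 1) ∘ₗ
      (M.map (MvPolynomial.eval z)).mulVecLin ∘ₗ cl n (LinearMap.proj 0) := by
    rw [h0]
    refine LinearMap.ext fun v => ?_
    ext i t
    rw [og_apply]
    change (∑ j, av (0 : (Fin 1 → K) →ₗ[K] (Fin 1 → K)) (Mt M z x i j) (v j)) t =
      (∑ j, (M.map (MvPolynomial.eval z)) i j * v j 0) * 1
    have ht : t = 0 := Subsingleton.elim _ _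
    subst ht
    rw [Finset.sum_apply, mul_one]
    refine Finset.sum_congr rfl fun j _ => ?_
    rw [h1]
    change (ft z x (M i j)).eval 0 * v j 0 = MvPolynomial.eval z (M i j) * v j 0
    rw [ft_eval, zero_smul, add_zero]
  rw [h2]
  exact (rk_comp_le_left _ _).trans (rk_comp_le_right _ _)

theorem approx_pol [CharZero K] {P : Set (Fin m → K)} (C : ℕ)
    (hP : ∀ (V : Type u) [AddCommGroup V] [Module K V] [FiniteDimensional K V],
      finrank K V ≤ C → Two P V) (M : Matrix (Fin n) (Fin n) (MvPolynomial (Fin m) K)) (d : ℕ)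
    (hd : ∀ i j, (M i j).totalDegree ≤ d) (q : ℕ) (hC : 2 ^ q * n ≤ C) (x : Fin m → K) :
    ∃ z ∈ cmb P q, 2 ^ q * (M.map (MvPolynomial.eval x)).rank ≤
      2 ^ q * (M.map (MvPolynomial.eval z)).rank +
        d * q.choose (q / 2) * (M.map (MvPolynomial.eval x)).rank := by
  obtain ⟨z, hz, h1⟩ := pso_up C hP M d hd x q (Fin 1 → K)
    (by rw [finrank_fin_fun, mul_one]; exact hC) (sk K 1) 0
  refine ⟨z, hz, ?_⟩
  rw [zero_add] at h1
  have h2 := rk_sk_one M z x
  have h3 := pso_low (Mt M 0 x) d (M.map (MvPolynomial.eval x)).rank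
    (low_base (Mt M 0 x) d _ (fun i j => (ft_deg _ _ _).trans (hd i j)) 1 (le_of_eq (by
      congr 1
      ext i j
      change MvPolynomial.eval x (M i j) = eval 1 (ft 0 x (M i j))
      rw [ft_eval, one_smul, zero_add]))) q 1
  rw [wlk_one, one_mul] at h3
  have h4 := Nat.mul_le_mul_left (2 ^ q) h2
  omega

/-- scalars replaced by small natural numbers -/
theorem nat_comb_pol [CharZero K] (M : Matrix (Fin n) (Fin n) (MvPolynomial (Fin m) K)) (d : ℕ)
    (hd : ∀ i j, (M i j).totalDegree ≤ d) (P : Set (Fin m → K)) (q : ℕ) :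
    ∀ z ∈ cmb P q, ∀ w : Fin m → K, ∃ (y : Fin q → ℕ) (p : Fin q → Fin m → K),
      (∀ i, y i ≤ n * d) ∧ (∀ i, p i ∈ P) ∧
      (M.map (MvPolynomial.eval (w + z))).rank ≤
        (M.map (MvPolynomial.eval (w + ∑ i, (y i : K) • p i))).rank := by
  classical
  induction q with
  | zero =>
    rintro z rfl w
    exact ⟨fun i => i.elim0, fun i => i.elim0, fun i => i.elim0, fun i => i.elim0, by simp⟩
  | succ q ih =>
    rintro z ⟨z', hz', s, p, hp, rfl⟩ w
    obtain ⟨y, p', hy, hp', h⟩ := ih z' hz' (w + s • p)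
    set w' := w + ∑ i, (y i : K) • p' i with hw'
    have h1 : w + s • p + ∑ i, (y i : K) • p' i = w' + s • p := by
      rw [hw']
      abel
    rw [h1] at h
    have hev : ∀ t : K, (Mt M w' p).map (eval t) = M.map (MvPolynomial.eval (w' + t • p)) := by
      intro t
      ext i j
      exact ft_eval _ _ _ _
    obtain ⟨c, hc, h2⟩ := Pool.Agent.BNR.grid (Mt M w' p) d
      (fun i j => (ft_deg _ _ _).trans (hd i j))
      ((Finset.range (n * d + 1)).image fun y : ℕ => (y : K)) (by
        rw [Finset.card_image_of_injective _ Nat.cast_injective, Finset.card_range,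
          Fintype.card_fin]
        exact Nat.lt_succ_self _) s
    obtain ⟨y0, hy0, rfl⟩ := Finset.mem_image.1 hc
    rw [hev, hev] at h2
    refine ⟨Fin.cons y0 y, Fin.cons p p', ?_, ?_, ?_⟩
    · intro i
      refine Fin.cases ?_ (fun i => ?_) i
      · exact Nat.le_of_lt_succ (Finset.mem_range.1 hy0)
      · exact hy i
    · intro i
      refine Fin.cases ?_ (fun i => ?_) i
      · exact hp
      · exact hp' i
    · rw [Fin.sum_univ_succ]
      simp only [Fin.cons_zero, Fin.cons_succ]
      have h3 : w + (z' + s • p) = w + s • p + z' := by abel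
      have h4 : w + ((y0 : K) • p + ∑ i, (y i : K) • p' i) = w' + (y0 : K) • p := by
        rw [hw']
        abel
      rw [h3, h4]
      exact h.trans h2

/-- matrices of polynomials -/
theorem ptas_pol [CharZero K] (n N q d : ℕ) (hN : 2 * (m * (n * 2 ^ q) ^ 2) < N)
    (M : Matrix (Fin n) (Fin n) (MvPolynomial (Fin m) K))
    (hd : ∀ i j, (M i j).totalDegree ≤ d) (x : Fin m → K) :
    ∃ y t j : Fin q → ℕ, (∀ i, y i ≤ n * d ∧ t i ≤ n * 2 ^ q * N * N ∧ j i < 2 * N - 1) ∧
      2 ^ q * (M.map (MvPolynomial.eval x)).rank ≤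
        2 ^ q * (M.map (MvPolynomial.eval fun e : Fin m =>
          ((∑ i, (y i : ℤ) * Pool.Agent.BNR.pts N (t i) (j i) (e : ℕ) : ℤ) : K))).rank +
          d * q.choose (q / 2) * (M.map (MvPolynomial.eval x)).rank := by
  obtain ⟨z, hz, h1⟩ := approx_pol (n * 2 ^ q)
    (fun V _ _ _ hV => two_pts V N (n * 2 ^ q) hV hN) M d hd q (le_of_eq (mul_comm _ _)) x
  obtain ⟨y, p, hy, hp, h2⟩ := nat_comb_pol M d hd _ q z hz 0
  choose t j ht hj hpe using hp
  refine ⟨y, t, j, fun i => ⟨hy i, ht i, hj i⟩, ?_⟩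
  rw [zero_add, zero_add] at h2
  have h3 : (fun e : Fin m => ((∑ i, (y i : ℤ) * Pool.Agent.BNR.pts N (t i) (j i) (e : ℕ) : ℤ) : K))
      = ∑ i, (y i : K) • p i := by
    funext e
    rw [Finset.sum_apply]
    push_cast
    refine Finset.sum_congr rfl fun i _ => ?_
    rw [Pi.smul_apply, smul_eq_mul, hpe i]
  rw [h3]
  have h4 := Nat.mul_le_mul_left (2 ^ q) h2
  omega

end Pool.Agent.CRP
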