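import Mathlib
import Pool.Agent.Helper5.D4.Jac2

/-!
CRP-Gen: generic rank of a matrix of polynomials, padding, Jacobian criterion in the form
`algebraic rank = maximal rank of the Jacobian matrix at a point` (characteristic 0).
-/

set_option autoImplicit false

namespace Pool.Agent.CRP

open MvPolynomial

universe u

variable {K : Type u} [Field K] {m n a b : ℕ}

/-- a matrix has a nonzero minor of the size of its rank -/
private theorem gen_minor {F : Type*} [Field F] (A : Matrix (Fin a) (Fin b) F) :
    ∃ (α : Fin A.rank → Fin a) (β : Fin A.rank → Fin b), (A.submatrix α β).det ≠ 0 := by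
  classical
  obtain ⟨κ, e, he, hs, hi⟩ := exists_linearIndependent' F A.row
  have hfin : Finite κ := Finite.of_injective e he
  have := Fintype.ofFinite κ
  have hcard : Fintype.card κ = A.rank := by
    have h1 := finrank_span_eq_card hi
    rw [hs] at h1
    rw [Matrix.rank_eq_finrank_span_row, h1]
  set g : Fin A.rank ≃ κ := (Fintype.equivFinOfCardEq hcard).symm with hg
  have h2 : LinearIndependent F (A.submatrix (e ∘ g) id).row := by
    have h3 : (A.submatrix (e ∘ g) id).row = (A.row ∘ e) ∘ g := by
      funext j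
      rfl
    rw [h3]
    exact hi.comp _ g.injective
  obtain ⟨J, hJ⟩ := Pool.Agent.Helper5.D4.exists_minor_of_rows _ h2
  exact ⟨_, J, hJ⟩

private theorem gen_rank {F : Type*} [Field F] {r : ℕ} {A : Matrix (Fin a) (Fin b) F}
    {α : Fin r → Fin a} {β : Fin r → Fin b} (h : (A.submatrix α β).det ≠ 0) : r ≤ A.rank := by
  have h1 : (A.submatrix α β).rank = r := by
    have h2 : IsUnit (A.submatrix α β) :=
      (Matrix.isUnit_iff_isUnit_det _).mpr (isUnit_iff_ne_zero.mpr h)
    have h3 := Matrix.rank_of_isUnit _ h2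
    rw [Fintype.card_fin] at h3
    exact h3
  rw [← h1]
  exact Matrix.rank_submatrix_le A α β

private theorem gen_det {R S : Type*} [CommRing R] [CommRing S] (φ : R →+* S) {r : ℕ}
    (M : Matrix (Fin a) (Fin b) R) (α : Fin r → Fin a) (β : Fin r → Fin b) :
    ((M.map φ).submatrix α β).det = φ (M.submatrix α β).det := by
  rw [RingHom.map_det]
  rfl

private theorem gen_point [Infinite K] {p : MvPolynomial (Fin m) K} (h : p ≠ 0) :
    ∃ x : Fin m → K, eval x p ≠ 0 := by
  by_contra hcon
  push Not at hcon
  exact h (MvPolynomial.funext fun x => by rw [hcon x, map_zero])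

theorem gen_attain [Infinite K] (M : Matrix (Fin a) (Fin b) (MvPolynomial (Fin m) K)) :
    ∃ x : Fin m → K, (M.map (algebraMap _ (FractionRing (MvPolynomial (Fin m) K)))).rank ≤
      (M.map (eval x)).rank := by
  obtain ⟨α, β, h⟩ := gen_minor (M.map (algebraMap _ (FractionRing (MvPolynomial (Fin m) K))))
  rw [gen_det] at h
  have h1 : (M.submatrix α β).det ≠ 0 := by
    intro h0
    rw [h0, map_zero] at h
    exact h rfl
  obtain ⟨x, hx⟩ := gen_point h1
  refine ⟨x, gen_rank (α := α) (β := β) ?_⟩
  rw [gen_det (eval x)]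
  exact hx

theorem gen_le (M : Matrix (Fin a) (Fin b) (MvPolynomial (Fin m) K)) (x : Fin m → K) :
    (M.map (eval x)).rank ≤
      (M.map (algebraMap _ (FractionRing (MvPolynomial (Fin m) K)))).rank := by
  obtain ⟨α, β, h⟩ := gen_minor (M.map (eval x))
  rw [gen_det (eval x)] at h
  have h1 : (M.submatrix α β).det ≠ 0 := by
    intro h0
    rw [h0, map_zero] at h
    exact h rfl
  refine gen_rank (α := α) (β := β) ?_
  rw [gen_det]
  intro h0
  exact h1 (IsFractionRing.injective (MvPolynomial (Fin m) K)
    (FractionRing (MvPolynomial (Fin m) K)) (h0.trans (map_zero _).symm))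

theorem pad (M : Matrix (Fin a) (Fin b) (MvPolynomial (Fin m) K)) (ha : a ≤ n) (hb : b ≤ n) :
    ∃ M' : Matrix (Fin n) (Fin n) (MvPolynomial (Fin m) K),
      (∀ i j, M' i j = 0 ∨ ∃ i' j', M' i j = M i' j') ∧
      ∀ x : Fin m → K, (M'.map (eval x)).rank = (M.map (eval x)).rank := by
  classical
  refine ⟨Matrix.of fun i j => if h : (i : ℕ) < a ∧ (j : ℕ) < b then M ⟨i, h.1⟩ ⟨j, h.2⟩ else 0,
    fun i j => ?_, fun x => ?_⟩
  · rw [Matrix.of_apply]
    by_cases h : (i : ℕ) < a ∧ (j : ℕ) < b
    · rw [dif_pos h]
      exact Or.inr ⟨_, _, rfl⟩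
    · rw [dif_neg h]
      exact Or.inl rfl
  · refine le_antisymm ?_ ?_
    · have e : (Matrix.of fun (i : Fin n) (j : Fin n) =>
          if h : (i : ℕ) < a ∧ (j : ℕ) < b then M ⟨i, h.1⟩ ⟨j, h.2⟩ else 0).map (eval x) =
          ((Matrix.of fun (i : Fin n) (k : Fin a) => if (i : ℕ) = k then (1 : K) else 0) *
            M.map (eval x)) *
            (Matrix.of fun (k : Fin b) (j : Fin n) => if (j : ℕ) = k then (1 : K) else 0) := by
        ext i j
        rw [Matrix.map_apply, Matrix.of_apply, Matrix.mul_apply]
        by_cases hj : (j : ℕ) < b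
        · rw [Finset.sum_eq_single (⟨j, hj⟩ : Fin b)]
          · rw [Matrix.of_apply, if_pos rfl, mul_one, Matrix.mul_apply]
            by_cases hi : (i : ℕ) < a
            · rw [dif_pos ⟨hi, hj⟩, Finset.sum_eq_single (⟨i, hi⟩ : Fin a)]
              · rw [Matrix.of_apply, if_pos rfl, one_mul, Matrix.map_apply]
              · intro k _ hk
                rw [Matrix.of_apply, if_neg, zero_mul]
                intro h
                exact hk (Fin.ext h.symm)
              · intro h
                exact absurd (Finset.mem_univ _) h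
            · rw [dif_neg (fun h => hi h.1), map_zero]
              refine (Finset.sum_eq_zero fun k _ => ?_).symm
              rw [Matrix.of_apply, if_neg, zero_mul]
              intro h
              exact hi (h ▸ k.2)
          · intro k _ hk
            rw [Matrix.of_apply, if_neg, mul_zero]
            intro h
            exact hk (Fin.ext h.symm)
          · intro h
            exact absurd (Finset.mem_univ _) h
        · rw [dif_neg (fun h => hj h.2), map_zero]
          refine (Finset.sum_eq_zero fun k _ => ?_).symm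
          rw [Matrix.of_apply, if_neg, mul_zero]
          intro h
          exact hj (h ▸ k.2)
      rw [e]
      exact (Matrix.rank_mul_le_left _ _).trans (Matrix.rank_mul_le_right _ _)
    · have e : M.map (eval x) = ((Matrix.of fun (i : Fin n) (j : Fin n) =>
          if h : (i : ℕ) < a ∧ (j : ℕ) < b then M ⟨i, h.1⟩ ⟨j, h.2⟩ else 0).map (eval x)).submatrix
          (Fin.castLE ha) (Fin.castLE hb) := by
        ext i j
        rw [Matrix.submatrix_apply, Matrix.map_apply, Matrix.map_apply, Matrix.of_apply,
          dif_pos ⟨i.2, j.2⟩]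
        rfl
      rw [e]
      exact Matrix.rank_submatrix_le _ _ _

/-- the Jacobian matrix at a point -/
noncomputable def jac (f : Fin n → MvPolynomial (Fin m) K) (z : Fin m → K) : Matrix (Fin n) (Fin m) K :=
  Matrix.of fun i e => eval z (pderiv e (f i))

theorem jac_ge [CharZero K] (f : Fin n → MvPolynomial (Fin m) K) {r : ℕ} (s : Fin r → Fin n)
    (h : AlgebraicIndependent K (f ∘ s)) : ∃ z : Fin m → K, r ≤ (jac f z).rank := by
  obtain ⟨J, hJ⟩ := Pool.Agent.Helper5.D4.exists_jacobian_minor (f ∘ s) h
  obtain ⟨z, hz⟩ := gen_point hJ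
  refine ⟨z, gen_rank (α := s) (β := J) ?_⟩
  have e : ((jac f z).submatrix s J).det =
      eval z (Matrix.of fun i j => pderiv (J j) ((f ∘ s) i)).det := by
    rw [RingHom.map_det]
    rfl
  rw [e]
  exact hz

theorem jac_le [CharZero K] (f : Fin n → MvPolynomial (Fin m) K) (z : Fin m → K) {r : ℕ} (h : r ≤ (jac f z).rank) :
    ∃ s : Fin r → Fin n, AlgebraicIndependent K (f ∘ s) := by
  obtain ⟨α, β, hd⟩ := gen_minor (jac f z)
  have e : ((jac f z).submatrix α β).det =
      eval z (Matrix.of fun i j => pderiv (β j) ((f ∘ α) i)).det := by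
    rw [RingHom.map_det]
    rfl
  rw [e] at hd
  have h1 : (Matrix.of fun i j => pderiv (β j) ((f ∘ α) i)).det ≠ 0 := by
    intro h0
    rw [h0, map_zero] at hd
    exact hd rfl
  have h2 := Pool.Agent.Helper5.D4.algebraicIndependent_of_det
    (fun j => pderiv (R := K) (β j)) (f ∘ α) h1
  exact ⟨α ∘ Fin.castLE h, h2.comp _ (Fin.castLE_injective h)⟩

end Pool.Agent.CRP
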