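import Mathlib
import Pool.Agent.CRP.Fam
import Pool.Agent.CRP.Gen

/-!
CRP: the explicit finite set of integer points, its size and the size of its elements.
-/

set_option autoImplicit false

namespace Pool.Agent.CRP

open Pool.Agent.BNR

/-- the parameter `N = 2 m n ^ 2 4 ^ q + 1` -/
def nn (m n q : ℕ) : ℕ := 2 * (m * (n * 2 ^ q) ^ 2) + 1

/-- the points `∑ i < q, y i * pts N (t i) (j i)` with `N = nn m n q`, `y i ≤ n d`,
`t i ≤ n 2 ^ q N ^ 2`, `j i < 2 N - 1` -/
def points (m n d q : ℕ) : Finset (Fin m → ℤ) :=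
  (Fintype.piFinset fun _ : Fin q => Finset.range (n * d + 1) ×ˢ
    (Finset.range (n * 2 ^ q * nn m n q * nn m n q + 1) ×ˢ Finset.range (2 * nn m n q - 1))).image
    fun (c : Fin q → ℕ × ℕ × ℕ) (e : Fin m) =>
      ∑ i, ((c i).1 : ℤ) * pts (nn m n q) (c i).2.1 (c i).2.2 (e : ℕ)

theorem points_card (m n d q : ℕ) : (points m n d q).card ≤
    ((n * d + 1) * (n * 2 ^ q * nn m n q ^ 2 + 1) * (2 * nn m n q - 1)) ^ q := by
  refine Finset.card_image_le.trans (le_of_eq ?_)
  rw [Fintype.card_piFinset_const, Finset.card_product, Finset.card_product, Finset.card_range,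
    Finset.card_range, Finset.card_range]
  congr 1
  ring

private theorem two_le_nn {m n q : ℕ} (hm : 0 < m) (hn : 0 < n) : 3 ≤ nn m n q := by
  unfold nn
  have h1 : 0 < m * (n * 2 ^ q) ^ 2 := by positivity
  omega

private theorem n_le_nn {m n q : ℕ} (hm : 0 < m) : n * 2 ^ q ≤ nn m n q := by
  unfold nn
  have h1 : n * 2 ^ q ≤ (n * 2 ^ q) ^ 2 := Nat.le_self_pow two_ne_zero _
  have h2 : (n * 2 ^ q) ^ 2 ≤ m * (n * 2 ^ q) ^ 2 := Nat.le_mul_of_pos_left _ hm
  omega

private theorem pts_abs {m N : ℕ} (hN : 3 ≤ N) {t j e : ℕ} (he : e < m) (ht : t ≤ N ^ 3) :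
    |pts N t j e| ≤ 2 ^ ((2 * m + 6) * N ^ 2) := by
  have h2N : 2 * N ≤ 2 ^ N := by
    obtain ⟨a, rfl⟩ : ∃ a, N = a + 3 := ⟨N - 3, by omega⟩
    clear hN ht
    induction a with
    | zero => norm_num
    | succ a ih =>
      have e1 : 2 ^ (a + 1 + 3) = 2 * 2 ^ (a + 3) := by ring
      rw [e1]
      omega
  have hNN : N ≤ 2 ^ N := Nat.lt_two_pow_self.le
  have hm : 0 < m := by omega
  have hmN : N ≤ m * N := Nat.le_mul_of_pos_left _ hm
  -- the factors
  have hfac : ∀ s < N, ∀ k ∈ (Finset.range (2 * N - 1)).erase j,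
      |(2 ^ (e * N + s) - (k : ℤ))| ≤ 2 ^ (m * N + 1) := by
    intro s hs k hk
    have hk1 : k < 2 * N := by
      have := Finset.mem_range.1 (Finset.mem_of_mem_erase hk)
      omega
    have h1 : e * N + s ≤ m * N := by
      have h3 : (e + 1) * N ≤ m * N := Nat.mul_le_mul_right N he
      have h4 : (e + 1) * N = e * N + N := by ring
      omega
    have h5 : (2 : ℤ) ^ (e * N + s) ≤ 2 ^ (m * N) := pow_le_pow_right₀ (by norm_num) h1
    have h6 : (k : ℤ) ≤ 2 ^ (m * N) := by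
      have h7 : k ≤ 2 ^ (m * N) :=
        (hk1.le.trans h2N).trans (Nat.pow_le_pow_right (by norm_num) hmN)
      exact_mod_cast h7
    have h8 : (0 : ℤ) < 2 ^ (e * N + s) := by positivity
    have h9 : (2 : ℤ) ^ (m * N + 1) = 2 * 2 ^ (m * N) := by ring
    have h10 : (0 : ℤ) ≤ (k : ℤ) := Int.natCast_nonneg k
    rw [h9, abs_le]
    constructor <;> linarith
  have hprod : ∀ s < N, |∏ k ∈ (Finset.range (2 * N - 1)).erase j,
      (2 ^ (e * N + s) - (k : ℤ))| ≤ 2 ^ ((m * N + 1) * (2 * N)) := by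
    intro s hs
    rw [Finset.abs_prod]
    refine (Finset.prod_le_prod (fun _ _ => abs_nonneg _) (hfac s hs)).trans ?_
    rw [Finset.prod_const, ← pow_mul]
    refine pow_le_pow_right₀ (by norm_num) (Nat.mul_le_mul_left _ ?_)
    refine (Finset.card_erase_le).trans ?_
    rw [Finset.card_range]
    exact Nat.sub_le _ _
  have ht' : ∀ s < N, |(t : ℤ) ^ s| ≤ 2 ^ (3 * N * N) := by
    intro s hs
    have h1 : t ^ s ≤ 2 ^ (3 * N * N) := by
      calc t ^ s ≤ (N ^ 3) ^ s := Nat.pow_le_pow_left ht s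
        _ ≤ (N ^ 3) ^ N := Nat.pow_le_pow_right (by positivity) hs.le
        _ ≤ ((2 ^ N) ^ 3) ^ N := Nat.pow_le_pow_left (Nat.pow_le_pow_left hNN 3) N
        _ = 2 ^ (3 * N * N) := by rw [← pow_mul, ← pow_mul]; congr 1; ring
    rw [abs_of_nonneg (by positivity)]
    exact_mod_cast h1
  have hterm : ∀ s ∈ Finset.range N, |(t : ℤ) ^ s *
      ∏ k ∈ (Finset.range (2 * N - 1)).erase j, (2 ^ (e * N + s) - (k : ℤ))| ≤
      2 ^ (3 * N * N) * 2 ^ ((m * N + 1) * (2 * N)) := by
    intro s hs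
    rw [abs_mul]
    exact mul_le_mul (ht' s (Finset.mem_range.1 hs)) (hprod s (Finset.mem_range.1 hs))
      (abs_nonneg _) (by positivity)
  unfold pts
  refine (Finset.abs_sum_le_sum_abs _ _).trans ((Finset.sum_le_card_nsmul _ _ _ hterm).trans ?_)
  rw [Finset.card_range, nsmul_eq_mul]
  have h1 : ((N : ℕ) : ℤ) ≤ 2 ^ N := by exact_mod_cast hNN
  calc ((N : ℕ) : ℤ) * (2 ^ (3 * N * N) * 2 ^ ((m * N + 1) * (2 * N)))
      ≤ 2 ^ N * (2 ^ (3 * N * N) * 2 ^ ((m * N + 1) * (2 * N))) :=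
        mul_le_mul_of_nonneg_right h1 (by positivity)
    _ = 2 ^ (N + (3 * N * N + (m * N + 1) * (2 * N))) := by rw [← pow_add, ← pow_add]
    _ ≤ 2 ^ ((2 * m + 6) * N ^ 2) := by
        refine pow_le_pow_right₀ (by norm_num) ?_
        have h3 : 3 * N ≤ 3 * N * N := Nat.le_mul_of_pos_right _ (by omega)
        have e1 : (2 * m + 6) * N ^ 2 = 2 * (m * N) * N + (3 * N * N + 3 * N * N) := by ring
        have e2 : (m * N + 1) * (2 * N) = 2 * (m * N) * N + 2 * N := by ring
        rw [e1, e2]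
        omega

theorem points_abs (m n d q : ℕ) : ∀ z ∈ points m n d q, ∀ e,
    |z e| ≤ (q * (n * d) * 2 ^ ((2 * m + 6) * nn m n q ^ 2) : ℕ) := by
  intro z hz e
  obtain ⟨c, hc, rfl⟩ := Finset.mem_image.1 hz
  have hm : 0 < m := lt_of_le_of_lt (Nat.zero_le _) e.2
  have h1 : ∀ i : Fin q, |((c i).1 : ℤ) * pts (nn m n q) (c i).2.1 (c i).2.2 (e : ℕ)| ≤
      ((n * d) * 2 ^ ((2 * m + 6) * nn m n q ^ 2) : ℕ) := by
    intro i
    have h2 := (Fintype.mem_piFinset.1 hc) i
    rw [Finset.mem_product, Finset.mem_product, Finset.mem_range, Finset.mem_range,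
      Finset.mem_range] at h2
    obtain ⟨hy, ht, -⟩ := h2
    rcases Nat.eq_zero_or_pos n with hn | hn
    · have h3 : (c i).1 = 0 := by
        rw [hn, zero_mul] at hy
        omega
      rw [h3, Nat.cast_zero, zero_mul, abs_zero]
      exact Int.natCast_nonneg _
    · have h3 : (c i).2.1 ≤ nn m n q ^ 3 := by
        have h4 := Nat.mul_le_mul_right (nn m n q * nn m n q) (n_le_nn (m := m) (n := n) (q := q) hm)
        have e1 : nn m n q ^ 3 = nn m n q * (nn m n q * nn m n q) := by ring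
        have e2 : n * 2 ^ q * nn m n q * nn m n q = n * 2 ^ q * (nn m n q * nn m n q) := by ring
        rw [e1]
        omega
      have h5 := pts_abs (j := (c i).2.2) (two_le_nn (q := q) hm hn) e.2 h3
      rw [abs_mul, abs_of_nonneg (Int.natCast_nonneg _)]
      have h6 : ((c i).1 : ℤ) ≤ ((n * d : ℕ) : ℤ) := by
        exact_mod_cast Nat.le_of_lt_succ hy
      rw [Nat.cast_mul (n * d)]
      refine mul_le_mul h6 ?_ (abs_nonneg _) (Int.natCast_nonneg _)
      rw [Nat.cast_pow, Nat.cast_ofNat]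
      exact h5
  refine (Finset.abs_sum_le_sum_abs _ _).trans
    ((Finset.sum_le_card_nsmul _ _ _ fun i _ => h1 i).trans (le_of_eq ?_))
  rw [Finset.card_univ, Fintype.card_fin, nsmul_eq_mul]
  push_cast
  ring

universe u

variable {K : Type u} [Field K] {m n a b : ℕ}

/-- square matrices and values -/
theorem points_sq [CharZero K] (d q : ℕ) (M : Matrix (Fin n) (Fin n) (MvPolynomial (Fin m) K))
    (hd : ∀ i j, (M i j).totalDegree ≤ d) (x : Fin m → K) :
    ∃ z ∈ points m n d q, 2 ^ q * (M.map (MvPolynomial.eval x)).rank ≤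
      2 ^ q * (M.map (MvPolynomial.eval fun e => (z e : K))).rank +
        d * q.choose (q / 2) * (M.map (MvPolynomial.eval x)).rank := by
  obtain ⟨y, t, j, h, h1⟩ := ptas_pol n (nn m n q) q d (Nat.lt_succ_self _) M hd x
  refine ⟨_, Finset.mem_image.2 ⟨fun i => (y i, t i, j i), ?_, rfl⟩, h1⟩
  refine Fintype.mem_piFinset.2 fun i => ?_
  rw [Finset.mem_product, Finset.mem_product, Finset.mem_range, Finset.mem_range,
    Finset.mem_range]
  exact ⟨Nat.lt_succ_of_le (h i).1, Nat.lt_succ_of_le (h i).2.1, (h i).2.2⟩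

/-- the generic rank of a matrix of polynomials -/
theorem points_gen [CharZero K] (d q : ℕ) (ha : a ≤ n) (hb : b ≤ n)
    (M : Matrix (Fin a) (Fin b) (MvPolynomial (Fin m) K))
    (hd : ∀ i j, (M i j).totalDegree ≤ d) :
    ∃ z ∈ points m n d q,
      2 ^ q * (M.map (algebraMap _ (FractionRing (MvPolynomial (Fin m) K)))).rank ≤
      2 ^ q * (M.map (MvPolynomial.eval fun e => (z e : K))).rank +
        d * q.choose (q / 2) *
          (M.map (algebraMap _ (FractionRing (MvPolynomial (Fin m) K)))).rank := by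
  obtain ⟨x, hx⟩ := gen_attain M
  have hx' := gen_le M x
  obtain ⟨M', h1, h2⟩ := pad (n := n) M ha hb
  obtain ⟨z, hz, h3⟩ := points_sq d q M' (fun i j => by
    rcases h1 i j with h | ⟨i', j', h⟩
    · rw [h, MvPolynomial.totalDegree_zero]
      exact Nat.zero_le _
    · rw [h]
      exact hd i' j') x
  refine ⟨z, hz, ?_⟩
  rw [h2, h2] at h3
  have h4 : (M.map (algebraMap _ (FractionRing (MvPolynomial (Fin m) K)))).rank =
      (M.map (MvPolynomial.eval x)).rank := le_antisymm hx hx'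
  rw [h4]
  exact h3

/-- the approximation factor `1 - 1 / k` -/
theorem ratio {d q k R r : ℕ} (hk : (d * k) ^ 2 ≤ q)
    (h : 2 ^ q * R ≤ 2 ^ q * r + d * q.choose (q / 2) * R) : (k - 1) * R ≤ k * r := by
  rcases k with _ | k
  · rw [Nat.zero_sub, zero_mul]
    exact Nat.zero_le _
  have h1 := choose_half _ _ hk
  have h2 : 2 ^ q * (k * R) ≤ 2 ^ q * ((k + 1) * r) := by
    have h3 := Nat.mul_le_mul_left (k + 1) h
    have h4 := Nat.mul_le_mul_right R h1
    have e1 : (k + 1) * (2 ^ q * R) = 2 ^ q * (k * R) + 2 ^ q * R := by ring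
    have e2 : (k + 1) * (2 ^ q * r + d * q.choose (q / 2) * R) =
        2 ^ q * ((k + 1) * r) + d * (k + 1) * q.choose (q / 2) * R := by ring
    rw [e1, e2] at h3
    omega
  exact Nat.le_of_mul_le_mul_left h2 (by positivity)

end Pool.Agent.CRP
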